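import Mathlib

/-!
# Adaptive constant depth tests: active blocks, pigeonhole, fixing digits
-/

set_option autoImplicit false

namespace Pool.CDTA

open Finset

/-- a large set of pairs contains `A` pairs in each of `g'` groups -/
theorem exists_active {g K A g' : ℕ} {β : ℝ} (hK : 1 ≤ K) (hA1 : 1 ≤ A)
    (R : Finset (Fin g × Fin K)) (hR : β * (g * K) ≤ (R.card : ℝ))
    (hg' : (g' : ℝ) ≤ β / 2 * g) (hA : (A : ℝ) ≤ β / 2 * K) :
    ∃ T : Finset (Fin g × Fin K), T ⊆ R ∧ (T.image Prod.fst).card = g' ∧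
      ∀ γ ∈ T.image Prod.fst, (T.filter fun x => x.1 = γ).card = A := by
  classical
  set Γ : Finset (Fin g) := univ.filter fun γ => A ≤ (R.filter fun x => x.1 = γ).card with hΓ
  have hΓc : g' ≤ Γ.card := by
    by_contra hcon
    push Not at hcon
    have e1 : R.card = ∑ γ : Fin g, (R.filter fun x => x.1 = γ).card :=
      card_eq_sum_card_fiberwise fun x _ => mem_coe.2 (mem_univ _)
    have e2 : ∑ γ : Fin g, (R.filter fun x => x.1 = γ).card ≤
        ∑ γ : Fin g, ((if γ ∈ Γ then K else 0) + A) := by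
      refine sum_le_sum fun γ _ => ?_
      split_ifs with h
      · refine le_trans ?_ (Nat.le_add_right _ _)
        have e3 : (R.filter fun x => x.1 = γ).card ≤ (univ : Finset (Fin K)).card := by
          refine card_le_card_of_injOn (fun x => x.2) (fun x _ => mem_coe.2 (mem_univ _)) ?_
          intro x hx y hy hxy
          have hx' := (mem_filter.1 hx).2
          have hy' := (mem_filter.1 hy).2
          exact Prod.ext (hx'.trans hy'.symm) hxy
        rwa [card_univ, Fintype.card_fin] at e3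
      · rw [hΓ, mem_filter, not_and] at h
        have h2 := h (mem_univ γ)
        omega
    rw [sum_add_distrib, ← sum_filter, filter_mem_eq_inter, univ_inter, sum_const, sum_const,
      card_univ, Fintype.card_fin, smul_eq_mul, smul_eq_mul] at e2
    rw [← e1] at e2
    have e3 : (R.card : ℝ) ≤ Γ.card * K + g * A := by exact_mod_cast e2
    have e4 : (Γ.card : ℝ) * K < g' * K := by
      have hK0 : (0 : ℝ) < K := by exact_mod_cast hK
      exact mul_lt_mul_of_pos_right (by exact_mod_cast hcon) hK0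
    have e5 : (g' : ℝ) * K ≤ β / 2 * g * K := mul_le_mul_of_nonneg_right hg' (Nat.cast_nonneg _)
    have e6 : (g : ℝ) * A ≤ g * (β / 2 * K) := mul_le_mul_of_nonneg_left hA (Nat.cast_nonneg _)
    linarith
  obtain ⟨Γ', hΓ', hΓ'c⟩ := exists_subset_card_eq hΓc
  have hex : ∀ γ, γ ∈ Γ' → ∃ T : Finset (Fin g × Fin K), T ⊆ (R.filter fun x => x.1 = γ) ∧
      T.card = A := fun γ hγ => exists_subset_card_eq (mem_filter.1 (hΓ' hγ)).2
  choose! T hT hTc using hex
  have hfst : ∀ γ ∈ Γ', ∀ x ∈ T γ, x.1 = γ := fun γ hγ x hx => (mem_filter.1 (hT γ hγ hx)).2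
  have himg : (Γ'.biUnion T).image Prod.fst = Γ' := by
    ext γ
    rw [mem_image]
    constructor
    · rintro ⟨x, hx, rfl⟩
      obtain ⟨γ', hγ', hx'⟩ := mem_biUnion.1 hx
      rw [hfst γ' hγ' x hx']
      exact hγ'
    · intro hγ
      have e1 : (T γ).Nonempty := by
        rw [← card_pos, hTc γ hγ]
        exact hA1
      obtain ⟨x, hx⟩ := e1
      exact ⟨x, mem_biUnion.2 ⟨γ, hγ, hx⟩, hfst γ hγ x hx⟩
  refine ⟨Γ'.biUnion T, ?_, ?_, ?_⟩
  · intro x hx
    obtain ⟨γ, hγ, hx'⟩ := mem_biUnion.1 hx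
    exact (mem_filter.1 (hT γ hγ hx')).1
  · rw [himg, hΓ'c]
  · intro γ hγ
    rw [himg] at hγ
    rw [← hTc γ hγ]
    congr 1
    ext x
    rw [mem_filter, mem_biUnion]
    constructor
    · rintro ⟨⟨γ', hγ', hx'⟩, hx⟩
      rw [hfst γ' hγ' x hx'] at hx
      rwa [← hx]
    · intro hx
      exact ⟨⟨γ, hγ, hx⟩, hfst γ hγ x hx⟩

/-- pigeonhole -/
theorem exists_fiber {W V : Type} [Fintype V] [DecidableEq V] (S : Finset W) (F : W → V)
    (hS : S.Nonempty) :
    ∃ v, S.card ≤ Fintype.card V * (S.filter fun c => F c = v).card := by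
  by_contra hcon
  push Not at hcon
  have hV : (univ : Finset V).Nonempty := by
    obtain ⟨c, -⟩ := hS
    exact ⟨F c, mem_univ _⟩
  have e1 : S.card = ∑ v : V, (S.filter fun c => F c = v).card :=
    card_eq_sum_card_fiberwise fun x _ => mem_coe.2 (mem_univ _)
  have e2 : ∑ v : V, Fintype.card V * (S.filter fun c => F c = v).card < ∑ _v : V, S.card :=
    sum_lt_sum_of_nonempty hV fun v _ => hcon v
  rw [← mul_sum, ← e1, sum_const, card_univ, smul_eq_mul] at e2
  exact lt_irrefl _ e2

section fix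

variable {D : Type} [DecidableEq D] {N h : ℕ} {D1 : Finset D}

/-- the word with the active digits `p` and the inactive digits `c` -/
def emb (ε : Fin N ≃ {x // x ∈ D1}) (c : D → Fin h) (p : Fin N → Fin h) : D → Fin h :=
  fun d => if hd : d ∈ D1 then p (ε.symm ⟨d, hd⟩) else c d

theorem emb_active (ε : Fin N ≃ {x // x ∈ D1}) (c : D → Fin h) (p : Fin N → Fin h) (i : Fin N) :
    emb ε c p (ε i) = p i := by
  rw [emb, dif_pos (ε i).2]
  simp

theorem emb_inactive (ε : Fin N ≃ {x // x ∈ D1}) (c : D → Fin h) (p : Fin N → Fin h) {d : D}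
    (hd : d ∉ D1) : emb ε c p d = c d := by
  rw [emb, dif_neg hd]

/-- exchange of the active digits -/
def exch (ε : Fin N ≃ {x // x ∈ D1}) (x : (D → Fin h) × (Fin N → Fin h)) :
    (D → Fin h) × (Fin N → Fin h) := (emb ε x.1 x.2, fun i => x.1 (ε i))

theorem exch_invol (ε : Fin N ≃ {x // x ∈ D1}) :
    Function.Involutive (exch (h := h) ε) := by
  rintro ⟨c, p⟩
  refine Prod.ext ?_ ?_
  · funext d
    simp only [exch]
    by_cases hd : d ∈ D1
    · rw [emb, dif_pos hd]
      simp
    · rw [emb_inactive ε _ _ hd, emb_inactive ε _ _ hd]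
  · funext i
    simp only [exch]
    rw [emb_active]

/-- fixing the inactive digits -/
theorem exists_fix [Fintype D] (ε : Fin N ≃ {x // x ∈ D1}) (hh : 1 ≤ h)
    (W : Finset (D → Fin h)) {δ : ℝ} (hW : δ * Fintype.card (D → Fin h) ≤ (W.card : ℝ)) :
    ∃ c : D → Fin h, δ * h ^ N ≤
      ((univ.filter fun p : Fin N → Fin h => emb ε c p ∈ W).card : ℝ) := by
  classical
  by_contra hcon
  push Not at hcon
  have hne : Nonempty (D → Fin h) := ⟨fun _ => ⟨0, hh⟩⟩
  have e1 : ((univ.filter fun x : (D → Fin h) × (Fin N → Fin h) => emb ε x.1 x.2 ∈ W).card) =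
      W.card * h ^ N := by
    have e2 : (univ.filter fun x : (D → Fin h) × (Fin N → Fin h) => emb ε x.1 x.2 ∈ W).card =
        (W ×ˢ (univ : Finset (Fin N → Fin h))).card := by
      refine card_nbij' (exch ε) (exch ε) ?_ ?_ ?_ ?_
      · intro x hx
        rw [mem_coe, mem_filter] at hx
        rw [mem_coe, mem_product]
        exact ⟨hx.2, mem_univ _⟩
      · intro x hx
        rw [mem_coe, mem_product] at hx
        rw [mem_coe, mem_filter]
        refine ⟨mem_univ _, ?_⟩
        have := congrArg Prod.fst (exch_invol ε x)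
        change (exch ε (exch ε x)).1 ∈ W
        rw [this]
        exact hx.1
      · intro x _
        exact exch_invol ε x
      · intro x _
        exact exch_invol ε x
    rw [e2, card_product, card_univ, Fintype.card_fun, Fintype.card_fin, Fintype.card_fin]
  have e2 : ((univ.filter fun x : (D → Fin h) × (Fin N → Fin h) => emb ε x.1 x.2 ∈ W).card) =
      ∑ c : D → Fin h, (univ.filter fun p : Fin N → Fin h => emb ε c p ∈ W).card := by
    rw [card_filter, Fintype.sum_prod_type]
    refine sum_congr rfl fun c _ => ?_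
    rw [card_filter]
  have e3 : ∑ c : D → Fin h, ((univ.filter fun p : Fin N → Fin h => emb ε c p ∈ W).card : ℝ) <
      ∑ _c : D → Fin h, δ * h ^ N :=
    sum_lt_sum_of_nonempty ⟨Classical.arbitrary _, mem_univ _⟩ fun c _ => hcon c
  rw [sum_const, card_univ, nsmul_eq_mul] at e3
  have e4 : ∑ c : D → Fin h, ((univ.filter fun p : Fin N → Fin h => emb ε c p ∈ W).card : ℝ) =
      (W.card : ℝ) * h ^ N := by
    rw [← Nat.cast_sum, ← e2, e1]
    push_cast
    rfl
  rw [e4] at e3
  have e5 : δ * Fintype.card (D → Fin h) * h ^ N ≤ (W.card : ℝ) * h ^ N :=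
    mul_le_mul_of_nonneg_right hW (by positivity)
  linarith

end fix

end Pool.CDTA
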