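import Pool.Agent.Helper10.AD.Tree

/-!
# Adaptive constant depth tests: the hybrid argument

The answers of the tests along a chain of inputs change rarely. So for many words the decision tree
accepts an input of the chain, the answers do not change there, and after the deletion of a letter
the tree rejects. Then a test which is answered `nonzero` on the path is zero after the deletion.
-/

set_option autoImplicit false

namespace Pool.CDTA

open Finset Pool.AD

/-- a chain of answers changes at most `N` times -/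
theorem changes_le {N : ℕ} (A : ℕ → Fin N → Bool)
    (hA : ∀ j v, A j v = true → A (j + 1) v = true) (J : ℕ) :
    ((range J).filter fun j => A j ≠ A (j + 1)).card ≤ N := by
  have key : ∀ J, ((range J).filter fun j => A j ≠ A (j + 1)).card ≤
      (univ.filter fun v => A J v = true).card := by
    intro J
    induction J with
    | zero => simp
    | succ J ih =>
      have hsub : (univ.filter fun v => A J v = true) ⊆ univ.filter fun v => A (J + 1) v = true := by
        intro v hv
        rw [mem_filter] at hv ⊢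
        exact ⟨hv.1, hA J v hv.2⟩
      rw [range_add_one, filter_insert]
      split_ifs with h
      · have h1 : ((insert J ((range J).filter fun j => A j ≠ A (j + 1))).card) ≤
            ((range J).filter fun j => A j ≠ A (j + 1)).card + 1 := card_insert_le _ _
        have h2 : (univ.filter fun v => A J v = true).card <
            (univ.filter fun v => A (J + 1) v = true).card := by
          apply card_lt_card
          refine ⟨hsub, fun h3 => h ?_⟩
          funext v
          cases h4 : A (J + 1) v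
          · cases h5 : A J v
            · rfl
            · rw [hA J v h5] at h4
              exact absurd h4 (by simp)
          · have h5 := h3 (mem_filter.2 ⟨mem_univ v, h4⟩)
            exact (mem_filter.1 h5).2
        omega
      · exact ih.trans (card_le_card hsub)
  refine (key J).trans ((card_filter_le _ _).trans ?_)
  simp

/-- some value is at least the mean value -/
theorem exists_ge_mean {Ω : Type} [Fintype Ω] (pr : Ω → ℝ) (h0 : ∀ ω, 0 ≤ pr ω)
    (h1 : ∑ ω, pr ω = 1) (G : Ω → ℝ) (κ : ℝ) (hG : κ ≤ ∑ ω, pr ω * G ω) : ∃ ω, κ ≤ G ω := by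
  by_contra hcon
  push Not at hcon
  obtain ⟨ω0, hω0⟩ : ∃ ω, 0 < pr ω := by
    by_contra hc
    push Not at hc
    have : ∑ ω, pr ω ≤ 0 := sum_nonpos fun ω _ => hc ω
    linarith
  have h3 : ∑ ω, pr ω * G ω < ∑ ω, pr ω * κ :=
    sum_lt_sum (fun ω _ => mul_le_mul_of_nonneg_left (hcon ω).le (h0 ω))
      ⟨ω0, mem_univ _, mul_lt_mul_of_pos_left (hcon ω0) hω0⟩
  rw [← sum_mul, h1, one_mul] at h3
  linarith

/-- **the hybrid argument** -/
theorem hybrid {Ω W Bk : Type} [Fintype Ω] [Fintype W] [Nonempty W] [Fintype Bk] [Nonempty Bk]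
    (pr : Ω → ℝ) (h0 : ∀ ω, 0 ≤ pr ω) (h1 : ∑ ω, pr ω = 1)
    {N hh J : ℕ} (hJ : 1 ≤ J) (t : Ω → DT N)
    (ht : ∀ ω b, ((t ω).ones b).card ≤ hh)
    (a : Ω → W → ℕ → Fin N → Bool) (a' : Ω → W → Fin J → Bk → Fin N → Bool)
    (ha : ∀ ω c j v, a ω c j v = true → a ω c (j + 1) v = true)
    (ha' : ∀ ω c (j : Fin J) i v, a' ω c j i v = true → a ω c (j + 1) v = true)
    {ε1 ε2 γ : ℝ}
    (hyes : ∀ c (j : Fin J), ∑ ω, (if (t ω).eval (a ω c (j + 1)) = false then pr ω else 0) ≤ ε1)
    (hno : ∀ c (j : Fin J) i, ∑ ω, (if (t ω).eval (a' ω c j i) = true then pr ω else 0) ≤ ε2)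
    (hγ0 : 0 < γ) (hγ : γ ≤ 1 - (ε1 + ε2 + N / J)) :
    ∃ (ω : Ω) (j : Fin J) (v : Fin N),
      γ / 2 * Fintype.card W ≤ N * ((univ.filter fun c : W => a ω c j v = true ∧
        γ / 2 * Fintype.card Bk ≤
          hh * ((univ.filter fun i => a' ω c j i v = false).card : ℝ)).card : ℝ) := by
  classical
  have hJ0 : (0 : ℝ) < J := by exact_mod_cast hJ
  have hW0 : (0 : ℝ) < Fintype.card W := by exact_mod_cast Fintype.card_pos
  have hB0 : (0 : ℝ) < Fintype.card Bk := by exact_mod_cast Fintype.card_pos
  set good : Ω → Fin J → W → Bk → Prop := fun ω j c i =>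
    (t ω).eval (a ω c (j + 1)) = true ∧ a ω c j = a ω c (j + 1) ∧ (t ω).eval (a' ω c j i) = false
    with hgood
  -- the mean value
  set G : Ω → ℝ := fun ω => ∑ x : Fin J × W × Bk, if good ω x.1 x.2.1 x.2.2 then 1 else 0 with hG
  have hcardI : (Fintype.card (Fin J × W × Bk) : ℝ) = J * (Fintype.card W * Fintype.card Bk) := by
    rw [Fintype.card_prod, Fintype.card_prod, Fintype.card_fin]
    push_cast
    ring
  have hmean : γ * (J * (Fintype.card W * Fintype.card Bk)) ≤ ∑ ω, pr ω * G ω := by
    have e1 : ∀ ω, (∑ x : Fin J × W × Bk, (1 -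
        (if (t ω).eval (a ω x.2.1 (x.1 + 1)) = false then (1 : ℝ) else 0) -
        (if (t ω).eval (a' ω x.2.1 x.1 x.2.2) = true then (1 : ℝ) else 0) -
        (if a ω x.2.1 x.1 ≠ a ω x.2.1 (x.1 + 1) then (1 : ℝ) else 0))) ≤ G ω := by
      intro ω
      refine sum_le_sum fun x _ => ?_
      simp only [hgood]
      cases h2 : (t ω).eval (a ω x.2.1 (x.1 + 1)) <;>
        cases h3 : (t ω).eval (a' ω x.2.1 x.1 x.2.2) <;>
        by_cases h4 : a ω x.2.1 x.1 = a ω x.2.1 (x.1 + 1) <;>
        simp [h4] <;> norm_num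
    have e2 : ∑ ω, pr ω * (∑ x : Fin J × W × Bk, (1 -
        (if (t ω).eval (a ω x.2.1 (x.1 + 1)) = false then (1 : ℝ) else 0) -
        (if (t ω).eval (a' ω x.2.1 x.1 x.2.2) = true then (1 : ℝ) else 0) -
        (if a ω x.2.1 x.1 ≠ a ω x.2.1 (x.1 + 1) then (1 : ℝ) else 0))) =
        J * (Fintype.card W * Fintype.card Bk) -
        (∑ x : Fin J × W × Bk, ∑ ω,
          (if (t ω).eval (a ω x.2.1 (x.1 + 1)) = false then pr ω else 0)) -
        (∑ x : Fin J × W × Bk, ∑ ω,
          (if (t ω).eval (a' ω x.2.1 x.1 x.2.2) = true then pr ω else 0)) -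
        ∑ ω, pr ω * ∑ x : Fin J × W × Bk,
          (if a ω x.2.1 x.1 ≠ a ω x.2.1 (x.1 + 1) then (1 : ℝ) else 0) := by
      rw [sum_comm (s := (univ : Finset (Fin J × W × Bk))),
        sum_comm (s := (univ : Finset (Fin J × W × Bk))), ← hcardI]
      have e3 : (Fintype.card (Fin J × W × Bk) : ℝ) =
          ∑ ω, pr ω * Fintype.card (Fin J × W × Bk) := by
        rw [← sum_mul, h1, one_mul]
      rw [e3, ← sum_sub_distrib, ← sum_sub_distrib, ← sum_sub_distrib]
      refine sum_congr rfl fun ω _ => ?_
      rw [sum_sub_distrib, sum_sub_distrib, sum_sub_distrib, sum_const, card_univ, nsmul_eq_mul,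
        mul_one, mul_sub, mul_sub, mul_sub, mul_sum (s := univ) (a := pr ω) (f := fun x : Fin J × W × Bk =>
          if (t ω).eval (a ω x.2.1 (x.1 + 1)) = false then (1 : ℝ) else 0),
        mul_sum (s := univ) (a := pr ω) (f := fun x : Fin J × W × Bk =>
          if (t ω).eval (a' ω x.2.1 x.1 x.2.2) = true then (1 : ℝ) else 0)]
      simp only [mul_ite, mul_one, mul_zero]
    have e3 : (∑ x : Fin J × W × Bk, ∑ ω,
          (if (t ω).eval (a ω x.2.1 (x.1 + 1)) = false then pr ω else 0)) ≤
        J * (Fintype.card W * Fintype.card Bk) * ε1 := by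
      refine (sum_le_sum fun x _ => hyes x.2.1 x.1).trans (le_of_eq ?_)
      rw [sum_const, card_univ, nsmul_eq_mul, hcardI]
    have e4 : (∑ x : Fin J × W × Bk, ∑ ω,
          (if (t ω).eval (a' ω x.2.1 x.1 x.2.2) = true then pr ω else 0)) ≤
        J * (Fintype.card W * Fintype.card Bk) * ε2 := by
      refine (sum_le_sum fun x _ => hno x.2.1 x.1 x.2.2).trans (le_of_eq ?_)
      rw [sum_const, card_univ, nsmul_eq_mul, hcardI]
    have e5 : ∀ ω, ∑ x : Fin J × W × Bk,
        (if a ω x.2.1 x.1 ≠ a ω x.2.1 (x.1 + 1) then (1 : ℝ) else 0) ≤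
        Fintype.card W * Fintype.card Bk * N := by
      intro ω
      rw [Fintype.sum_prod_type, sum_comm]
      have e6 : ∀ y : W × Bk, ∑ j : Fin J,
          (if a ω y.1 j ≠ a ω y.1 (j + 1) then (1 : ℝ) else 0) ≤ N := by
        intro y
        rw [Fin.sum_univ_eq_sum_range (fun j => if a ω y.1 j ≠ a ω y.1 (j + 1) then (1 : ℝ) else 0) J,
          ← sum_filter, sum_const, nsmul_eq_mul, mul_one]
        exact_mod_cast changes_le (a ω y.1) (ha ω y.1) J
      refine (sum_le_sum fun y _ => e6 y).trans (le_of_eq ?_)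
      rw [sum_const, card_univ, nsmul_eq_mul, Fintype.card_prod]
      push_cast
      ring
    have e6 : ∑ ω, pr ω * ∑ x : Fin J × W × Bk,
          (if a ω x.2.1 x.1 ≠ a ω x.2.1 (x.1 + 1) then (1 : ℝ) else 0) ≤
        J * (Fintype.card W * Fintype.card Bk) * (N / J) := by
      refine (sum_le_sum fun ω _ => mul_le_mul_of_nonneg_left (e5 ω) (h0 ω)).trans (le_of_eq ?_)
      rw [← sum_mul, h1, one_mul]
      field_simp
    have e7 : ∑ ω, pr ω * (∑ x : Fin J × W × Bk, (1 -
        (if (t ω).eval (a ω x.2.1 (x.1 + 1)) = false then (1 : ℝ) else 0) -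
        (if (t ω).eval (a' ω x.2.1 x.1 x.2.2) = true then (1 : ℝ) else 0) -
        (if a ω x.2.1 x.1 ≠ a ω x.2.1 (x.1 + 1) then (1 : ℝ) else 0))) ≤ ∑ ω, pr ω * G ω :=
      sum_le_sum fun ω _ => mul_le_mul_of_nonneg_left (e1 ω) (h0 ω)
    refine le_trans ?_ e7
    rw [e2]
    have e8 : γ * (J * (Fintype.card W * Fintype.card Bk)) ≤
        (1 - (ε1 + ε2 + N / J)) * (J * (Fintype.card W * Fintype.card Bk)) :=
      mul_le_mul_of_nonneg_right hγ (by positivity)
    linarith
  obtain ⟨ω, hω⟩ := exists_ge_mean pr h0 h1 G _ hmean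
  -- the cell
  obtain ⟨j, hj⟩ : ∃ j : Fin J, γ * (Fintype.card W * Fintype.card Bk) ≤
      ∑ c : W, ((univ.filter fun i => good ω j c i).card : ℝ) := by
    by_contra hcon
    push Not at hcon
    have e1 : G ω < γ * (J * (Fintype.card W * Fintype.card Bk)) := by
      have e2 : G ω = ∑ j : Fin J, ∑ c : W, ((univ.filter fun i => good ω j c i).card : ℝ) := by
        simp only [hG]
        rw [Fintype.sum_prod_type]
        refine sum_congr rfl fun j _ => ?_
        rw [Fintype.sum_prod_type]
        refine sum_congr rfl fun c _ => ?_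
        rw [← sum_filter, sum_const, nsmul_eq_mul, mul_one]
      rw [e2]
      have hne : (univ : Finset (Fin J)).Nonempty := ⟨⟨0, hJ⟩, mem_univ _⟩
      refine (sum_lt_sum_of_nonempty hne fun j _ => hcon j).trans_le (le_of_eq ?_)
      rw [sum_const, card_univ, nsmul_eq_mul, Fintype.card_fin]
      ring
    linarith
  -- the words
  set W1 : Finset W := univ.filter fun c =>
    γ / 2 * Fintype.card Bk ≤ ((univ.filter fun i => good ω j c i).card : ℝ) with hW1
  have hW1c : γ / 2 * Fintype.card W ≤ (W1.card : ℝ) := by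
    have e1 : ∑ c : W, ((univ.filter fun i => good ω j c i).card : ℝ) ≤
        ∑ c : W, ((if c ∈ W1 then (Fintype.card Bk : ℝ) else 0) + γ / 2 * Fintype.card Bk) := by
      refine sum_le_sum fun c _ => ?_
      split_ifs with h
      · have e2 : ((univ.filter fun i => good ω j c i).card : ℝ) ≤ Fintype.card Bk := by
          exact_mod_cast card_le_univ _
        have : 0 ≤ γ / 2 * Fintype.card Bk := by positivity
        linarith
      · rw [hW1, mem_filter, not_and] at h
        have h2 := h (mem_univ c)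
        push Not at h2
        linarith
    rw [sum_add_distrib, ← sum_filter, filter_mem_eq_inter, univ_inter, sum_const, sum_const,
      card_univ, nsmul_eq_mul, nsmul_eq_mul] at e1
    have e2 := hj.trans e1
    have e3 : γ / 2 * Fintype.card W * Fintype.card Bk ≤ (W1.card : ℝ) * Fintype.card Bk := by
      linarith
    exact le_of_mul_le_mul_right e3 hB0
  -- the test
  have hex : ∀ c ∈ W1, ∃ v : Fin N, a ω c j v = true ∧ γ / 2 * Fintype.card Bk ≤
      hh * ((univ.filter fun i => a' ω c j i v = false).card : ℝ) := by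
    intro c hc
    have hc' : γ / 2 * Fintype.card Bk ≤ ((univ.filter fun i => good ω j c i).card : ℝ) :=
      (mem_filter.1 hc).2
    have hpos : (0 : ℝ) < ((univ.filter fun i => good ω j c i).card : ℝ) :=
      lt_of_lt_of_le (by positivity) hc'
    have hne : (univ.filter fun i => good ω j c i).Nonempty := by
      rw [← card_pos]
      exact_mod_cast hpos
    obtain ⟨i0, hi0⟩ := hne
    have hsame : a ω c j = a ω c (j + 1) := (mem_filter.1 hi0).2.2.1
    set U : Finset (Fin N) := (t ω).ones (a ω c (j + 1)) with hU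
    have hcov : (univ.filter fun i => good ω j c i) ⊆
        U.biUnion fun v => univ.filter fun i => a' ω c j i v = false := by
      intro i hi
      have hg := (mem_filter.1 hi).2
      by_contra hcon
      rw [mem_biUnion] at hcon
      push Not at hcon
      have e1 : ∀ v ∈ (t ω).ones (a ω c (j + 1)), a' ω c j i v = true := by
        intro v hv
        have e2 := hcon v hv
        rw [mem_filter, not_and] at e2
        have e3 := e2 (mem_univ i)
        simpa using e3
      have e2 := DT.eval_of_ones _ _ (t ω) (ha' ω c j i) e1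
      rw [hg.1, hg.2.2] at e2
      exact absurd e2 (by simp)
    have hUone : ∀ v ∈ U, a ω c j v = true := by
      intro v hv
      rw [hsame]
      exact DT.ones_pos _ _ v hv
    by_contra hcon
    push Not at hcon
    have hUne : U.Nonempty := by
      have e1 := hcov hi0
      rw [mem_biUnion] at e1
      obtain ⟨v, hv, -⟩ := e1
      exact ⟨v, hv⟩
    have hUc : (U.card : ℝ) ≤ hh := by exact_mod_cast ht ω _
    have hUp : (0 : ℝ) < U.card := by exact_mod_cast hUne.card_pos
    have hhp : (0 : ℝ) < hh := lt_of_lt_of_le hUp hUc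
    have e1 : ((univ.filter fun i => good ω j c i).card : ℝ) ≤
        ∑ v ∈ U, ((univ.filter fun i => a' ω c j i v = false).card : ℝ) := by
      exact_mod_cast (card_le_card hcov).trans card_biUnion_le
    have e2 : ∑ v ∈ U, (hh : ℝ) * ((univ.filter fun i => a' ω c j i v = false).card : ℝ) <
        ∑ _v ∈ U, γ / 2 * Fintype.card Bk :=
      sum_lt_sum_of_nonempty hUne fun v hv => hcon v (hUone v hv)
    rw [← mul_sum, sum_const, nsmul_eq_mul] at e2
    have e3 : (hh : ℝ) * (γ / 2 * Fintype.card Bk) ≤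
        hh * ∑ v ∈ U, ((univ.filter fun i => a' ω c j i v = false).card : ℝ) :=
      mul_le_mul_of_nonneg_left (hc'.trans e1) hhp.le
    have e4 : (U.card : ℝ) * (γ / 2 * Fintype.card Bk) ≤ hh * (γ / 2 * Fintype.card Bk) :=
      mul_le_mul_of_nonneg_right hUc (by positivity)
    linarith
  set R : Fin N → Finset W := fun v => univ.filter fun c : W => a ω c j v = true ∧
        γ / 2 * Fintype.card Bk ≤ hh * ((univ.filter fun i => a' ω c j i v = false).card : ℝ)
    with hR
  have hsum : (W1.card : ℝ) ≤ ∑ v : Fin N, ((R v).card : ℝ) := by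
    have e1 : W1 ⊆ univ.biUnion R := by
      intro c hc
      obtain ⟨v, hv⟩ := hex c hc
      rw [mem_biUnion]
      exact ⟨v, mem_univ _, mem_filter.2 ⟨mem_univ _, hv⟩⟩
    exact_mod_cast (card_le_card e1).trans card_biUnion_le
  by_contra hcon
  push Not at hcon
  have hne : (univ : Finset (Fin N)).Nonempty := by
    have e1 : (0 : ℝ) < W1.card := lt_of_lt_of_le (by positivity) hW1c
    have e2 : W1.Nonempty := by
      rw [← card_pos]
      exact_mod_cast e1
    obtain ⟨c, hc⟩ := e2
    obtain ⟨v, -⟩ := hex c hc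
    exact ⟨v, mem_univ _⟩
  have e1 : ∑ v : Fin N, (N : ℝ) * ((R v).card : ℝ) < ∑ _v : Fin N, γ / 2 * Fintype.card W :=
    sum_lt_sum_of_nonempty hne fun v _ => hcon ω j v
  rw [← mul_sum, sum_const, card_univ, Fintype.card_fin, nsmul_eq_mul] at e1
  have hN0 : (0 : ℝ) < N := by
    obtain ⟨v, -⟩ := hne
    exact_mod_cast v.pos
  have e2 := lt_of_mul_lt_mul_left e1 hN0.le
  linarith

end Pool.CDTA
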