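import Pool.Agent.CDTA.Gadget

/-!
# Adaptive constant depth tests: the gadget with cells and groups
-/

set_option autoImplicit false

namespace Pool.CDTA

open Finset Pool.SatDet

/-- The gadget for a general type of digits. -/
structure LD {E : Type} (P : Finset E → Prop) {D LU LV : Type} (h : ℕ) (tu : D → LU)
    (tv : D → LV) where
  /-- the `u` letter of the block of the digit `i` -/
  u : D → (D → Fin h) → E
  /-- the `v` letter of the block of the digit `i` -/
  v : D → (D → Fin h) → E
  /-- the free variables -/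
  Z : Finset E
  u_eq : ∀ i i' p p', u i p = u i' p' ↔ tu i = tu i' ∧ ∀ l, tu l = tu i → p l = p' l
  v_eq : ∀ i i' p p', v i p = v i' p' ↔ tv i = tv i' ∧ ∀ l, tv l = tv i → p l = p' l
  uZ : ∀ i p, u i p ∉ Z
  vZ : ∀ i p, v i p ∉ Z
  uv : ∀ i i' p p', u i p ≠ v i' p'
  main : ∀ p S, P S → (∀ e ∈ S, e ∈ Z ∨ (∃ i, e = u i p) ∨ ∃ i q, e = v i q) →
    ∀ i, u i p ∈ S ∧ v i p ∈ S
  sat : ∀ p S, (∀ e ∈ Z, e ∈ S) → (∀ i, u i p ∈ S) → (∀ i, v i p ∈ S) → P S

/-- change of the type of digits -/
def LG.toLD {E : Type} {P : Finset E → Prop} {N h : ℕ} {D LU LV : Type} (ε : Fin N ≃ D)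
    {φu : LU → ℕ} (hφu : Function.Injective φu) {φv : LV → ℕ} (hφv : Function.Injective φv)
    {tu : D → LU} {tv : D → LV}
    (G : LG P h (fun i => φu (tu (ε i))) (fun i => φv (tv (ε i)))) : LD P h tu tv where
  u := fun d p => G.u (ε.symm d) (fun i => p (ε i))
  v := fun d p => G.v (ε.symm d) (fun i => p (ε i))
  Z := G.Z
  u_eq := by
    intro d d' p p'
    rw [G.u_eq]
    simp only [Equiv.apply_symm_apply]
    constructor
    · rintro ⟨h1, h2⟩
      refine ⟨hφu h1, fun l hl => ?_⟩
      have := h2 (ε.symm l) (by rw [Equiv.apply_symm_apply, hl])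
      simpa using this
    · rintro ⟨h1, h2⟩
      exact ⟨congrArg φu h1, fun l hl => h2 _ (hφu hl)⟩
  v_eq := by
    intro d d' p p'
    rw [G.v_eq]
    simp only [Equiv.apply_symm_apply]
    constructor
    · rintro ⟨h1, h2⟩
      refine ⟨hφv h1, fun l hl => ?_⟩
      have := h2 (ε.symm l) (by rw [Equiv.apply_symm_apply, hl])
      simpa using this
    · rintro ⟨h1, h2⟩
      exact ⟨congrArg φv h1, fun l hl => h2 _ (hφv hl)⟩
  uZ := fun i p => G.uZ _ _
  vZ := fun i p => G.vZ _ _
  uv := fun i i' p p' => G.uv _ _ _ _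
  main := by
    intro p S hP hS d
    refine G.main (fun i => p (ε i)) S hP ?_ (ε.symm d)
    intro e he
    rcases hS e he with h1 | ⟨i, rfl⟩ | ⟨i, q, rfl⟩
    · exact Or.inl h1
    · exact Or.inr (Or.inl ⟨_, rfl⟩)
    · exact Or.inr (Or.inr ⟨_, _, rfl⟩)
  sat := by
    intro p S hZ hu hv
    refine G.sat (fun i => p (ε i)) S hZ ?_ ?_
    · intro i
      have := hu (ε i)
      rwa [Equiv.symm_apply_apply] at this
    · intro i
      have := hv (ε i)
      rwa [Equiv.symm_apply_apply] at this

/-- the digits: cell, group, `v` block, `u` block -/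
abbrev Dg (J g K B : ℕ) : Type := Fin J × Fin g × Fin K × Fin B

/-- the label of the `u` block -/
def tuD {J g K B : ℕ} (d : Dg J g K B) : Fin J × Fin g × Fin B := (d.1, d.2.1, d.2.2.2)

/-- the label of the `v` block -/
def tvD {J g K B : ℕ} (d : Dg J g K B) : Fin J × Fin g × Fin K := (d.1, d.2.1, d.2.2.1)

/-- **the gadget exists** for all large numbers of variables -/
theorem exists_ld {J g K B h n d : ℕ} (hd : 2 ≤ d) (hh : 1 ≤ h) (hJ : 1 ≤ J) (hg : 1 ≤ g)
    (hK : 1 ≤ K) (hB : 1 ≤ B)
    (hn : 2 * (J * g * B * h ^ K + J * g * K * h ^ B) + d ≤ n) :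
    Nonempty (LD (SatP n (d + 1)) h (tuD : Dg J g K B → _) tvD) := by
  classical
  set ε : Fin (Fintype.card (Dg J g K B)) ≃ Dg J g K B := (Fintype.equivFin _).symm with hε
  set φu : Fin J × Fin g × Fin B → ℕ := fun x => (Fintype.equivFin _ x : ℕ) with hφu
  set φv : Fin J × Fin g × Fin K → ℕ := fun x => (Fintype.equivFin _ x : ℕ) with hφv
  have hφui : Function.Injective φu := fun x y hxy => (Fintype.equivFin _).injective (Fin.ext hxy)
  have hφvi : Function.Injective φv := fun x y hxy => (Fintype.equivFin _).injective (Fin.ext hxy)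
  have hcu : (univ.image fun i => φu (tuD (ε i))).card ≤ J * g * B := by
    have e1 : (univ.image fun i => φu (tuD (ε i))) ⊆ univ.image φu := by
      intro x hx
      obtain ⟨i, -, rfl⟩ := mem_image.1 hx
      exact mem_image_of_mem _ (mem_univ _)
    refine (card_le_card e1).trans (card_image_le.trans (le_of_eq ?_))
    rw [card_univ, Fintype.card_prod, Fintype.card_prod, Fintype.card_fin, Fintype.card_fin,
      Fintype.card_fin, mul_assoc]
  have hcv : (univ.image fun i => φv (tvD (ε i))).card ≤ J * g * K := by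
    have e1 : (univ.image fun i => φv (tvD (ε i))) ⊆ univ.image φv := by
      intro x hx
      obtain ⟨i, -, rfl⟩ := mem_image.1 hx
      exact mem_image_of_mem _ (mem_univ _)
    refine (card_le_card e1).trans (card_image_le.trans (le_of_eq ?_))
    rw [card_univ, Fintype.card_prod, Fintype.card_prod, Fintype.card_fin, Fintype.card_fin,
      Fintype.card_fin, mul_assoc]
  have hA : ∀ j, (univ.filter fun i => φu (tuD (ε i)) = j).card ≤ K := by
    intro j
    have e1 : (univ.filter fun i => φu (tuD (ε i)) = j).card ≤ (univ : Finset (Fin K)).card := by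
      refine card_le_card_of_injOn (fun i => (ε i).2.2.1) (fun x _ => mem_coe.2 (mem_univ _)) ?_
      intro x hx y hy hxy
      have hx' := (mem_filter.1 hx).2
      have hy' := (mem_filter.1 hy).2
      have h1 := hφui (hx'.trans hy'.symm)
      simp only [tuD, Prod.mk.injEq] at h1
      apply ε.injective
      exact Prod.ext h1.1 (Prod.ext h1.2.1 (Prod.ext hxy h1.2.2))
    rwa [card_univ, Fintype.card_fin] at e1
  have hB' : ∀ j, (univ.filter fun i => φv (tvD (ε i)) = j).card ≤ B := by
    intro j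
    have e1 : (univ.filter fun i => φv (tvD (ε i)) = j).card ≤ (univ : Finset (Fin B)).card := by
      refine card_le_card_of_injOn (fun i => (ε i).2.2.2) (fun x _ => mem_coe.2 (mem_univ _)) ?_
      intro x hx y hy hxy
      have hx' := (mem_filter.1 hx).2
      have hy' := (mem_filter.1 hy).2
      have h1 := hφvi (hx'.trans hy'.symm)
      simp only [tvD, Prod.mk.injEq] at h1
      apply ε.injective
      exact Prod.ext h1.1 (Prod.ext h1.2.1 (Prod.ext h1.2.2 hxy))
    rwa [card_univ, Fintype.card_fin] at e1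
  have hN : 1 ≤ Fintype.card (Dg J g K B) := by
    have : Nonempty (Dg J g K B) := ⟨(⟨0, hJ⟩, ⟨0, hg⟩, ⟨0, hK⟩, ⟨0, hB⟩)⟩
    exact Fintype.card_pos
  obtain ⟨G⟩ := exists_lgSat (h := h) (n := n) (fun i => φu (tuD (ε i)))
    (fun i => φv (tvD (ε i))) hd hh hA hB' hN (by
      refine le_trans ?_ hn
      have e1 := Nat.mul_le_mul_right (h ^ K) hcu
      have e2 := Nat.mul_le_mul_right (h ^ B) hcv
      omega)
  exact ⟨G.toLD ε hφui hφvi⟩

end Pool.CDTA
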