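import Pool.Agent.CDTA.Count
import Pool.Agent.CDTA.Hybrid
import Pool.Agent.CDTA.Active
import Pool.Agent.CDTA.Layout

/-!
# Adaptive constant depth tests: the main inequality
-/

set_option autoImplicit false

namespace Pool.CDTA

open Finset MvPolynomial Pool.AD Pool.SatDet Pool.CDep Pool.CD Pool.Agent.Helper41.CD

section hit

variable {E F : Type} [CommSemiring F]

/-- `f` has a monomial with all variables in `S` -/
def Hit (S : Finset E) (f : MvPolynomial E F) : Prop := ∃ m ∈ f.support, m.support ⊆ S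

theorem Hit.mono {S S' : Finset E} {f : MvPolynomial E F} (h : S ⊆ S') (hf : Hit S f) :
    Hit S' f := by
  obtain ⟨m, hm, hs⟩ := hf
  exact ⟨m, hm, hs.trans h⟩

open Classical in
/-- the answers to the tests -/
noncomputable def ansH {N : ℕ} (f : Fin N → MvPolynomial E F) (S : Finset E) : Fin N → Bool :=
  fun v => decide (Hit S (f v))

end hit

theorem card_image_le_of {α β γ : Type} [Fintype α] [DecidableEq β] [DecidableEq γ] (f1 : α → β)
    (f2 : α → γ) (h : ∀ i i', f2 i = f2 i' → f1 i = f1 i') :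
    (univ.image f1).card ≤ (univ.image f2).card := by
  rcases isEmpty_or_nonempty α with h0 | h0
  · simp
  · have e1 : univ.image f1 ⊆ (univ.image f2).image fun y => f1 (Function.invFun f2 y) := by
      intro x hx
      obtain ⟨i, -, rfl⟩ := mem_image.1 hx
      rw [mem_image]
      exact ⟨f2 i, mem_image_of_mem _ (mem_univ _), h _ _ (Function.invFun_eq ⟨i, rfl⟩)⟩
    exact (card_le_card e1).trans card_image_le

/-- the letters of a block depend only on the digits of the block -/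
theorem loc_letters {E D L : Type} [DecidableEq E] [DecidableEq D] {N h : ℕ} {D1 : Finset D}
    (ε : Fin N ≃ {x // x ∈ D1}) (c0 : D → Fin h) (tu : D → L) {φ : L → ℕ}
    (u : D → (D → Fin h) → E)
    (u_eq : ∀ i i' p p', u i p = u i' p' ↔ tu i = tu i' ∧ ∀ l, tu l = tu i → p l = p' l) (e : E) :
    ∃ J : Finset ℕ, J ⊆ univ.image (fun i => φ (tu (ε i))) ∧ J.card ≤ 1 ∧
      ∀ p p', (∀ i, φ (tu (ε i)) ∈ J → p i = p' i) →
        (e ∈ univ.image (fun i => u (ε i) (emb ε c0 p)) ↔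
          e ∈ univ.image (fun i => u (ε i) (emb ε c0 p'))) := by
  by_cases he : ∃ i q, e = u (ε i) (emb ε c0 q)
  · obtain ⟨i, q, rfl⟩ := he
    refine ⟨{φ (tu (ε i))}, ?_, by simp, ?_⟩
    · intro x hx
      rw [mem_singleton] at hx
      rw [hx]
      exact mem_image_of_mem _ (mem_univ _)
    · have key : ∀ p p' : Fin N → Fin h,
          (∀ i', φ (tu (ε i')) ∈ ({φ (tu (ε i))} : Finset ℕ) → p i' = p' i') →
          u (ε i) (emb ε c0 q) ∈ univ.image (fun i => u (ε i) (emb ε c0 p)) →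
          u (ε i) (emb ε c0 q) ∈ univ.image (fun i => u (ε i) (emb ε c0 p')) := by
        intro p p' hp hmem
        obtain ⟨i', -, hi'⟩ := mem_image.1 hmem
        rw [u_eq] at hi'
        rw [mem_image]
        refine ⟨i', mem_univ _, ?_⟩
        rw [u_eq]
        refine ⟨hi'.1, fun l hl => ?_⟩
        rw [← hi'.2 l hl]
        by_cases hl1 : l ∈ D1
        · obtain ⟨i2, hi2⟩ := ε.surjective ⟨l, hl1⟩
          have hl2 : l = ε i2 := by rw [hi2]
          rw [hl2, emb_active, emb_active]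
          refine (hp i2 ?_).symm
          rw [mem_singleton, ← hl2, hl, hi'.1]
        · rw [emb_inactive ε _ _ hl1, emb_inactive ε _ _ hl1]
      exact fun p p' hp => ⟨key p p' hp, key p' p fun i' hi' => (hp i' hi').symm⟩
  · refine ⟨∅, empty_subset _, by simp, fun p p' _ => ?_⟩
    have key : ∀ p : Fin N → Fin h, e ∉ univ.image (fun i => u (ε i) (emb ε c0 p)) := by
      intro p hmem
      obtain ⟨i, -, hi⟩ := mem_image.1 hmem
      exact he ⟨i, p, hi.symm⟩
    exact ⟨fun h1 => absurd h1 (key p), fun h1 => absurd h1 (key p')⟩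

section chain

variable {E : Type} [DecidableEq E] {P : Finset E → Prop} {J g K B h : ℕ}
  (G : LD P h (tuD : Dg J g K B → _) tvD)

/-- the chain of inputs: all `v` letters in the cells before the cell `j` -/
noncomputable def ch (c : Dg J g K B → Fin h) (j : ℕ) : Finset E :=
  G.Z ∪ univ.image (fun i => G.u i c) ∪ univ.image (fun i => G.v i c) ∪
    (univ.filter fun x : Dg J g K B × (Dg J g K B → Fin h) => (x.1.1 : ℕ) < j).image
      fun x => G.v x.1 x.2

theorem mem_ch (c : Dg J g K B → Fin h) (j : ℕ) (e : E) :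
    e ∈ ch G c j ↔ e ∈ G.Z ∨ (∃ i, e = G.u i c) ∨ (∃ i, e = G.v i c) ∨
      ∃ (i : Dg J g K B) (q : Dg J g K B → Fin h), (i.1 : ℕ) < j ∧ e = G.v i q := by
  rw [ch, mem_union, mem_union, mem_union, mem_image, mem_image, mem_image]
  constructor
  · rintro (((h1 | ⟨i, _, h1⟩) | ⟨i, _, h1⟩) | ⟨⟨i, q⟩, h1, h2⟩)
    · exact Or.inl h1
    · exact Or.inr (Or.inl ⟨i, h1.symm⟩)
    · exact Or.inr (Or.inr (Or.inl ⟨i, h1.symm⟩))
    · exact Or.inr (Or.inr (Or.inr ⟨i, q, (mem_filter.1 h1).2, h2.symm⟩))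
  · rintro (h1 | ⟨i, h1⟩ | ⟨i, h1⟩ | ⟨i, q, h1, h2⟩)
    · exact Or.inl (Or.inl (Or.inl h1))
    · exact Or.inl (Or.inl (Or.inr ⟨i, mem_univ _, h1.symm⟩))
    · exact Or.inl (Or.inr ⟨i, mem_univ _, h1.symm⟩)
    · exact Or.inr ⟨(i, q), mem_filter.2 ⟨mem_univ _, h1⟩, h2.symm⟩

theorem ch_mono (c : Dg J g K B → Fin h) (j : ℕ) : ch G c j ⊆ ch G c (j + 1) := by
  intro e he
  rw [mem_ch] at he ⊢
  rcases he with h1 | h1 | h1 | ⟨i, q, h1, h2⟩
  · exact Or.inl h1
  · exact Or.inr (Or.inl h1)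
  · exact Or.inr (Or.inr (Or.inl h1))
  · exact Or.inr (Or.inr (Or.inr ⟨i, q, by omega, h2⟩))

theorem ch_yes (c : Dg J g K B → Fin h) (j : ℕ) : P (ch G c j) :=
  G.sat c _ (fun _ he => (mem_ch G c j _).2 (Or.inl he))
    (fun i => (mem_ch G c j _).2 (Or.inr (Or.inl ⟨i, rfl⟩)))
    (fun i => (mem_ch G c j _).2 (Or.inr (Or.inr (Or.inl ⟨i, rfl⟩))))

theorem ch_no (c : Dg J g K B → Fin h) (j : ℕ) (i : Dg J g K B) :
    ¬ P (ch G c j \ {G.v i c}) := by
  intro hP
  have h1 := (G.main c _ hP (fun e he => ?_) i).2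
  · rw [mem_sdiff, mem_singleton] at h1
    exact h1.2 rfl
  · rcases (mem_ch G c j e).1 (mem_sdiff.1 he).1 with h1 | h1 | ⟨i, h1⟩ | ⟨i, q, _, h1⟩
    · exact Or.inl h1
    · exact Or.inr (Or.inl h1)
    · exact Or.inr (Or.inr ⟨i, c, h1⟩)
    · exact Or.inr (Or.inr ⟨i, q, h1⟩)

open Classical in
/-- **the count for one polynomial** -/
theorem count_active {F : Type} [Field F] {w0 w S k A g' T : ℕ} (hw0 : 1 ≤ w0) (hw : 1 ≤ w)
    (hh : 1 ≤ h) (hK : 1 ≤ K) (hB : 1 ≤ B) (hA1 : 1 ≤ A) {X' Y' : ℕ → ℝ}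
    (hG : Grw w0 w S ((h : ℝ) ^ A) ((h : ℝ) ^ B) (2 * k + 1) X' Y')
    (hX : 1 ≤ X' (2 * k + 1)) (hY : 0 ≤ Y' (2 * k + 1)) (j : Fin J)
    (f : Fin T → Fin S → MvPolynomial E F) (hf : ∀ i j, f i j ∈ Cls w0 w S k)
    (hml : ∀ m ∈ (∑ i, ∏ j, f i j).support, ∀ e, m e ≤ 1)
    (W : Finset (Dg J g K B → Fin h)) {δ β : ℝ} (hδ : 0 < δ)
    (hW : δ * Fintype.card (Dg J g K B → Fin h) ≤ (W.card : ℝ))
    (hW1 : ∀ c ∈ W, Hit (ch G c j) (∑ i, ∏ j, f i j))
    (hW2 : ∀ c ∈ W, β * (g * K) ≤ ((univ.filter fun x : Fin g × Fin K =>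
      ¬ Hit (ch G c (j + 1) \ {G.v (j, x.1, x.2, ⟨0, hB⟩) c}) (∑ i, ∏ j, f i j)).card : ℝ))
    (hg' : (g' : ℝ) ≤ β / 2 * g) (hA : (A : ℝ) ≤ β / 2 * K) :
    δ * h ^ (g' * A * B) ≤ 2 ^ (g * K) * ((g' * B + 1) * (2 ^ (g' * B + g' * A) *
      (T * (4 ^ (g' * B + g' * A) * X' (2 * k + 1) ^ (g' * B) * Y' (2 * k + 1) ^ (g' * A))))) := by
  set fs : MvPolynomial E F := ∑ i, ∏ j, f i j with hfs
  have hne : Nonempty (Dg J g K B → Fin h) := ⟨fun _ => ⟨0, hh⟩⟩
  have hWne : W.Nonempty := by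
    rw [← card_pos]
    have e1 : (0 : ℝ) < Fintype.card (Dg J g K B → Fin h) := by exact_mod_cast Fintype.card_pos
    have e2 : (0 : ℝ) < W.card := lt_of_lt_of_le (by positivity) hW
    exact_mod_cast e2
  -- the active sets
  have hex : ∀ c, c ∈ W → ∃ T : Finset (Fin g × Fin K), T ⊆ (univ.filter fun x : Fin g × Fin K =>
      ¬ Hit (ch G c (j + 1) \ {G.v (j, x.1, x.2, ⟨0, hB⟩) c}) fs) ∧ (T.image Prod.fst).card = g' ∧
      ∀ γ ∈ T.image Prod.fst, (T.filter fun x => x.1 = γ).card = A := fun c hc =>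
    exists_active hK hA1 _ (hW2 c hc) hg' hA
  choose! Act hAct1 hAct2 hAct3 using hex
  obtain ⟨T0, hT0⟩ := exists_fiber W Act hWne
  rw [Fintype.card_finset, Fintype.card_prod, Fintype.card_fin, Fintype.card_fin] at hT0
  set W1 : Finset (Dg J g K B → Fin h) := W.filter fun c => Act c = T0 with hW1d
  have hW1ne : W1.Nonempty := by
    rw [← card_pos]
    by_contra hcon
    have : W1.card = 0 := by omega
    rw [this, mul_zero] at hT0
    have := hWne.card_pos
    omega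
  obtain ⟨c1, hc1⟩ := hW1ne
  obtain ⟨hc1W, hc1T⟩ := mem_filter.1 hc1
  have hT2 : (T0.image Prod.fst).card = g' := by rw [← hc1T]; exact hAct2 c1 hc1W
  have hT3 : ∀ γ ∈ T0.image Prod.fst, (T0.filter fun x => x.1 = γ).card = A := by
    rw [← hc1T]
    exact hAct3 c1 hc1W
  have hT1 : ∀ c ∈ W1, ∀ x ∈ T0,
      ¬ Hit (ch G c (j + 1) \ {G.v (j, x.1, x.2, ⟨0, hB⟩) c}) fs := by
    intro c hc x hx
    obtain ⟨hcW, hcT⟩ := mem_filter.1 hc
    rw [← hcT] at hx
    exact (mem_filter.1 (hAct1 c hcW hx)).2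
  have hTc : T0.card = g' * A := by
    rw [card_eq_sum_card_fiberwise (f := Prod.fst) (t := T0.image Prod.fst)
      (fun x hx => mem_coe.2 (mem_image_of_mem _ hx)), sum_congr rfl hT3, sum_const, hT2,
      smul_eq_mul]
  -- the active digits
  set D1 : Finset (Dg J g K B) := univ.filter fun d => d.1 = j ∧ (d.2.1, d.2.2.1) ∈ T0 with hD1
  have hmD1 : ∀ d : Dg J g K B, d ∈ D1 ↔ d.1 = j ∧ (d.2.1, d.2.2.1) ∈ T0 := fun d => by
    rw [hD1, mem_filter]
    simp
  have hD1c : D1.card = g' * A * B := by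
    have e1 : D1.card = (T0 ×ˢ (univ : Finset (Fin B))).card := by
      refine card_nbij' (fun d => ((d.2.1, d.2.2.1), d.2.2.2)) (fun x => (j, x.1.1, x.1.2, x.2))
        ?_ ?_ ?_ ?_
      · intro d hd
        rw [mem_coe, hmD1] at hd
        rw [mem_coe, mem_product]
        exact ⟨hd.2, mem_univ _⟩
      · intro x hx
        rw [mem_coe, mem_product] at hx
        rw [mem_coe, hmD1]
        exact ⟨rfl, hx.1⟩
      · intro d hd
        rw [mem_coe, hmD1] at hd
        exact Prod.ext hd.1.symm rfl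
      · intro x _
        rfl
    rw [e1, card_product, hTc, card_univ, Fintype.card_fin]
  obtain ⟨ε⟩ : Nonempty (Fin (g' * A * B) ≃ {x // x ∈ D1}) :=
    ⟨Fintype.equivOfCardEq (by rw [Fintype.card_fin, Fintype.card_coe, hD1c])⟩
  have hε : ∀ i, (ε i : Dg J g K B).1 = j ∧ ((ε i : Dg J g K B).2.1, (ε i : Dg J g K B).2.2.1) ∈ T0 :=
    fun i => (hmD1 _).1 (ε i).2
  have hε' : ∀ d : Dg J g K B, d.1 = j → (d.2.1, d.2.2.1) ∈ T0 → ∃ i, d = ε i := by
    intro d h1 h2
    obtain ⟨i, hi⟩ := ε.surjective ⟨d, (hmD1 d).2 ⟨h1, h2⟩⟩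
    exact ⟨i, by rw [hi]⟩
  have hcardW1 : δ / 2 ^ (g * K) * Fintype.card (Dg J g K B → Fin h) ≤ (W1.card : ℝ) := by
    have e1 : (W.card : ℝ) ≤ 2 ^ (g * K) * W1.card := by exact_mod_cast hT0
    rw [div_mul_eq_mul_div, div_le_iff₀ (by positivity)]
    linarith
  obtain ⟨c0, hc0⟩ := exists_fix ε hh W1 hcardW1
  set W2 : Finset (Fin (g' * A * B) → Fin h) := univ.filter fun p => emb ε c0 p ∈ W1 with hW2d
  -- letters
  set φu : Fin J × Fin g × Fin B → ℕ := fun x => (Fintype.equivFin _ x : ℕ) with hφu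
  set φv : Fin J × Fin g × Fin K → ℕ := fun x => (Fintype.equivFin _ x : ℕ) with hφv
  have hφui : Function.Injective φu := fun x y hxy => (Fintype.equivFin _).injective (Fin.ext hxy)
  have hφvi : Function.Injective φv := fun x y hxy => (Fintype.equivFin _).injective (Fin.ext hxy)
  set U : (Fin (g' * A * B) → Fin h) → Finset E := fun p =>
    univ.image fun i => G.u (ε i) (emb ε c0 p) with hU
  set V : (Fin (g' * A * B) → Fin h) → Finset E := fun p =>
    univ.image fun i => G.v (ε i) (emb ε c0 p) with hV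
  set Z : Finset E := G.Z ∪ ((univ.filter fun d : Dg J g K B =>
      ¬ (d.1 = j ∧ d.2.1 ∈ T0.image Prod.fst)).image fun d => G.u d c0) ∪
      ((univ.filter fun d : Dg J g K B => d ∉ D1).image fun d => G.v d c0) ∪
      ((univ.filter fun x : Dg J g K B × (Dg J g K B → Fin h) => (x.1.1 : ℕ) < j).image
        fun x => G.v x.1 x.2) with hZ
  have hmZ : ∀ e, e ∈ Z ↔ e ∈ G.Z ∨ (∃ d : Dg J g K B, ¬ (d.1 = j ∧ d.2.1 ∈ T0.image Prod.fst) ∧
      e = G.u d c0) ∨ (∃ d : Dg J g K B, d ∉ D1 ∧ e = G.v d c0) ∨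
      ∃ (d : Dg J g K B) (q : Dg J g K B → Fin h), (d.1 : ℕ) < j ∧ e = G.v d q := by
    intro e
    rw [hZ, mem_union, mem_union, mem_union, mem_image, mem_image, mem_image]
    constructor
    · rintro (((h1 | ⟨i, h1, h2⟩) | ⟨i, h1, h2⟩) | ⟨⟨i, q⟩, h1, h2⟩)
      · exact Or.inl h1
      · exact Or.inr (Or.inl ⟨i, (mem_filter.1 h1).2, h2.symm⟩)
      · exact Or.inr (Or.inr (Or.inl ⟨i, (mem_filter.1 h1).2, h2.symm⟩))
      · exact Or.inr (Or.inr (Or.inr ⟨i, q, (mem_filter.1 h1).2, h2.symm⟩))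
    · rintro (h1 | ⟨i, h1, h2⟩ | ⟨i, h1, h2⟩ | ⟨i, q, h1, h2⟩)
      · exact Or.inl (Or.inl (Or.inl h1))
      · exact Or.inl (Or.inl (Or.inr ⟨i, mem_filter.2 ⟨mem_univ _, h1⟩, h2.symm⟩))
      · exact Or.inl (Or.inr ⟨i, mem_filter.2 ⟨mem_univ _, h1⟩, h2.symm⟩)
      · exact Or.inr ⟨(i, q), mem_filter.2 ⟨mem_univ _, h1⟩, h2.symm⟩
  -- inactive `u` letters
  have hu_in : ∀ (p : Fin (g' * A * B) → Fin h) (d : Dg J g K B),
      ¬ (d.1 = j ∧ d.2.1 ∈ T0.image Prod.fst) → G.u d (emb ε c0 p) = G.u d c0 := by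
    intro p d hd
    rw [G.u_eq]
    refine ⟨rfl, fun l hl => emb_inactive ε _ _ fun hl1 => hd ?_⟩
    simp only [tuD, Prod.mk.injEq] at hl
    have h1 := (hmD1 l).1 hl1
    rw [← hl.1, ← hl.2.1]
    exact ⟨h1.1, mem_image.2 ⟨_, h1.2, rfl⟩⟩
  have hv_in : ∀ (p : Fin (g' * A * B) → Fin h) (d : Dg J g K B), d ∉ D1 →
      G.v d (emb ε c0 p) = G.v d c0 := by
    intro p d hd
    rw [G.v_eq]
    refine ⟨rfl, fun l hl => emb_inactive ε _ _ fun hl1 => hd ?_⟩
    simp only [tvD, Prod.mk.injEq] at hl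
    rw [hmD1] at hl1 ⊢
    rw [← hl.1, ← hl.2.1, ← hl.2.2]
    exact hl1
  have hDat : Dat (fun i => φu (tuD (ε i : Dg J g K B))) (fun i => φv (tvD (ε i : Dg J g K B)))
      Z U V := by
    refine ⟨?_, ?_, ?_, ?_, ?_⟩
    · intro p
      rw [Finset.disjoint_left]
      intro e heZ heU
      obtain ⟨i, -, rfl⟩ := mem_image.1 heU
      rcases (hmZ _).1 heZ with h1 | ⟨d, h1, h2⟩ | ⟨d, h1, h2⟩ | ⟨d, q, h1, h2⟩
      · exact G.uZ _ _ h1
      · rw [G.u_eq] at h2
        have h3 := h2.1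
        simp only [tuD, Prod.mk.injEq] at h3
        apply h1
        rw [← h3.1, ← h3.2.1]
        exact ⟨(hε i).1, mem_image.2 ⟨_, (hε i).2, rfl⟩⟩
      · exact G.uv _ _ _ _ h2
      · exact G.uv _ _ _ _ h2
    · intro p
      rw [Finset.disjoint_left]
      intro e heZ heV
      obtain ⟨i, -, rfl⟩ := mem_image.1 heV
      rcases (hmZ _).1 heZ with h1 | ⟨d, h1, h2⟩ | ⟨d, h1, h2⟩ | ⟨d, q, h1, h2⟩
      · exact G.vZ _ _ h1
      · exact G.uv _ _ _ _ h2.symm
      · rw [G.v_eq] at h2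
        have h3 := h2.1
        simp only [tvD, Prod.mk.injEq] at h3
        apply h1
        rw [hmD1, ← h3.1, ← h3.2.1, ← h3.2.2]
        exact hε i
      · rw [G.v_eq] at h2
        have h3 := h2.1
        simp only [tvD, Prod.mk.injEq] at h3
        rw [← h3.1, (hε i).1] at h1
        exact lt_irrefl _ h1
    · intro p p'
      rw [Finset.disjoint_left]
      intro e heU heV
      obtain ⟨i, -, rfl⟩ := mem_image.1 heU
      obtain ⟨i', -, h1⟩ := mem_image.1 heV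
      exact G.uv _ _ _ _ h1.symm
    · intro e
      exact loc_letters ε c0 tuD (φ := φu) G.u G.u_eq e
    · intro e
      exact loc_letters ε c0 tvD (φ := φv) G.v G.v_eq e
  -- numbers of letters
  have hcu : (univ.image fun i => φu (tuD (ε i : Dg J g K B))).card ≤ g' * B := by
    have e1 : (univ.image fun i => φu (tuD (ε i : Dg J g K B))) ⊆
        ((T0.image Prod.fst) ×ˢ (univ : Finset (Fin B))).image fun x => φu (j, x.1, x.2) := by
      intro x hx
      obtain ⟨i, -, rfl⟩ := mem_image.1 hx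
      rw [mem_image]
      refine ⟨((ε i : Dg J g K B).2.1, (ε i : Dg J g K B).2.2.2), ?_, ?_⟩
      · rw [mem_product]
        exact ⟨mem_image.2 ⟨_, (hε i).2, rfl⟩, mem_univ _⟩
      · simp only [tuD]
        rw [(hε i).1]
    refine (card_le_card e1).trans (card_image_le.trans (le_of_eq ?_))
    rw [card_product, hT2, card_univ, Fintype.card_fin]
  have hcv : (univ.image fun i => φv (tvD (ε i : Dg J g K B))) =
      T0.image fun x => φv (j, x.1, x.2) := by
    ext x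
    rw [mem_image, mem_image]
    constructor
    · rintro ⟨i, -, rfl⟩
      refine ⟨_, (hε i).2, ?_⟩
      simp only [tvD]
      rw [(hε i).1]
    · rintro ⟨y, hy, rfl⟩
      obtain ⟨i, hi⟩ := hε' (j, y.1, y.2, ⟨0, hB⟩) rfl hy
      refine ⟨i, mem_univ _, ?_⟩
      rw [← hi]
      rfl
  have hcv' : (univ.image fun i => φv (tvD (ε i : Dg J g K B))).card = g' * A := by
    rw [hcv, card_image_of_injective, hTc]
    intro x y hxy
    have := hφvi hxy
    simp only [Prod.mk.injEq, true_and] at this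
    exact Prod.ext this.1 this.2
  have hUc : ∀ p, (U p).card ≤ g' * B := by
    intro p
    refine le_trans ?_ hcu
    refine card_image_le_of _ _ fun i i' hii => ?_
    rw [G.u_eq]
    exact ⟨hφui hii, fun _ _ => rfl⟩
  have hVc : ∀ p, (V p).card = g' * A := by
    intro p
    rw [← hcv']
    refine le_antisymm ?_ ?_
    · refine card_image_le_of _ _ fun i i' hii => ?_
      rw [G.v_eq]
      exact ⟨hφvi hii, fun _ _ => rfl⟩
    · refine card_image_le_of _ _ fun i i' hii => ?_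
      rw [G.v_eq] at hii
      exact congrArg φv hii.1
  have hbu : ∀ t, (univ.filter fun i => φu (tuD (ε i : Dg J g K B)) = t).card ≤ A := by
    intro t
    rcases (univ.filter fun i => φu (tuD (ε i : Dg J g K B)) = t).eq_empty_or_nonempty with h1 | h1
    · rw [h1]
      simp
    · obtain ⟨i0, hi0⟩ := h1
      have hi0' := (mem_filter.1 hi0).2
      refine le_trans ?_ (le_of_eq (hT3 (ε i0 : Dg J g K B).2.1
        (mem_image.2 ⟨_, (hε i0).2, rfl⟩)))
      refine card_le_card_of_injOn (fun i => ((ε i : Dg J g K B).2.1, (ε i : Dg J g K B).2.2.1))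
        ?_ ?_
      · intro i hi
        rw [mem_coe, mem_filter] at hi
        rw [mem_coe, mem_filter]
        refine ⟨(hε i).2, ?_⟩
        have h2 := hφui (hi.2.trans hi0'.symm)
        simp only [tuD, Prod.mk.injEq] at h2
        exact h2.2.1
      · intro i hi i' hi' hii
        rw [mem_coe, mem_filter] at hi hi'
        have h2 := hφui (hi.2.trans hi'.2.symm)
        simp only [tuD, Prod.mk.injEq] at h2
        simp only [Prod.mk.injEq] at hii
        apply ε.injective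
        apply Subtype.ext
        exact Prod.ext h2.1 (Prod.ext h2.2.1 (Prod.ext hii.2 h2.2.2))
  have hbv : ∀ t, (univ.filter fun i => φv (tvD (ε i : Dg J g K B)) = t).card ≤ B := by
    intro t
    have e1 : (univ.filter fun i => φv (tvD (ε i : Dg J g K B)) = t).card ≤
        (univ : Finset (Fin B)).card := by
      refine card_le_card_of_injOn (fun i => (ε i : Dg J g K B).2.2.2)
        (fun x _ => mem_coe.2 (mem_univ _)) ?_
      intro i hi i' hi' hii
      rw [mem_coe, mem_filter] at hi hi'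
      have h2 := hφvi (hi.2.trans hi'.2.symm)
      simp only [tvD, Prod.mk.injEq] at h2
      apply ε.injective
      apply Subtype.ext
      exact Prod.ext h2.1 (Prod.ext h2.2.1 (Prod.ext h2.2.2 hii))
    rwa [card_univ, Fintype.card_fin] at e1
  -- a letter of a word is in no other word
  have hdel : ∀ p ∈ W2, ∀ p' : Fin (g' * A * B) → Fin h, ∀ i, p i ≠ p' i →
      ∀ m ∈ fs.support, ¬ m.support ⊆ Z ∪ U p ∪ V p' := by
    intro p hp p' i hi m hm hsub
    have hp1 : emb ε c0 p ∈ W1 := (mem_filter.1 hp).2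
    apply hT1 _ hp1 _ (hε i).2
    refine ⟨m, hm, fun e he => ?_⟩
    have he' := hsub he
    rw [mem_union, mem_union] at he'
    rw [mem_sdiff, mem_singleton, mem_ch]
    rcases he' with (h1 | h1) | h1
    · rcases (hmZ e).1 h1 with h2 | ⟨d, h2, h3⟩ | ⟨d, h2, h3⟩ | ⟨d, q, h2, h3⟩
      · exact ⟨Or.inl h2, fun h4 => G.vZ _ _ (h4 ▸ h2)⟩
      · refine ⟨Or.inr (Or.inl ⟨d, ?_⟩), fun h4 => ?_⟩
        · rw [hu_in p d h2]
          exact h3
        · exact G.uv _ _ _ _ (h3.symm.trans h4)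
      · refine ⟨Or.inr (Or.inr (Or.inl ⟨d, ?_⟩)), fun h4 => ?_⟩
        · rw [hv_in p d h2]
          exact h3
        · have h5 := h3.symm.trans h4
          rw [G.v_eq] at h5
          have h6 := h5.1
          simp only [tvD, Prod.mk.injEq] at h6
          apply h2
          rw [hmD1, h6.2.1, h6.2.2]
          exact ⟨h6.1, (hε i).2⟩
      · refine ⟨Or.inr (Or.inr (Or.inr ⟨d, q, by omega, h3⟩)), fun h4 => ?_⟩
        have h5 := h3.symm.trans h4
        rw [G.v_eq] at h5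
        have h6 := h5.1
        simp only [tvD, Prod.mk.injEq] at h6
        rw [h6.1] at h2
        exact lt_irrefl _ h2
    · obtain ⟨i', -, rfl⟩ := mem_image.1 h1
      exact ⟨Or.inr (Or.inl ⟨_, rfl⟩), fun h4 => G.uv _ _ _ _ h4⟩
    · obtain ⟨i', -, rfl⟩ := mem_image.1 h1
      refine ⟨Or.inr (Or.inr (Or.inr ⟨_, _, ?_, rfl⟩)), fun h4 => ?_⟩
      · rw [(hε i').1]
        exact Nat.lt_succ_self _
      · rw [G.v_eq] at h4
        have h6 := h4.1
        have h7 := h4.2 (ε i) (by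
          rw [h6]
          simp only [tvD, Prod.mk.injEq, and_true]
          exact (hε i).1)
        rw [emb_active, emb_active] at h7
        exact hi h7.symm
  -- the letters of the chain
  have hsubch : ∀ p : Fin (g' * A * B) → Fin h, ch G (emb ε c0 p) j ⊆ Z ∪ U p ∪ V p := by
    intro p e he
    rw [mem_union, mem_union]
    rcases (mem_ch G _ _ _).1 he with h1 | ⟨d, h1⟩ | ⟨d, h1⟩ | ⟨d, q, h1, h2⟩
    · exact Or.inl (Or.inl ((hmZ e).2 (Or.inl h1)))
    · by_cases h2 : d.1 = j ∧ d.2.1 ∈ T0.image Prod.fst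
      · obtain ⟨x, hx, hxd⟩ := mem_image.1 h2.2
        obtain ⟨i, hi⟩ := hε' (j, x.1, x.2, d.2.2.2) rfl hx
        refine Or.inl (Or.inr (mem_image.2 ⟨i, mem_univ _, ?_⟩))
        rw [h1, G.u_eq, ← hi]
        refine ⟨?_, fun _ _ => rfl⟩
        simp only [tuD]
        rw [h2.1, hxd]
      · refine Or.inl (Or.inl ((hmZ e).2 (Or.inr (Or.inl ⟨d, h2, ?_⟩))))
        rw [h1, hu_in p d h2]
    · by_cases h2 : d ∈ D1
      · obtain ⟨h3, h4⟩ := (hmD1 d).1 h2
        obtain ⟨i, hi⟩ := hε' d h3 h4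
        refine Or.inr (mem_image.2 ⟨i, mem_univ _, ?_⟩)
        rw [← hi, h1]
      · refine Or.inl (Or.inl ((hmZ e).2 (Or.inr (Or.inr (Or.inl ⟨d, h2, ?_⟩)))))
        rw [h1, hv_in p d h2]
    · exact Or.inl (Or.inl ((hmZ e).2 (Or.inr (Or.inr (Or.inr ⟨d, q, h1, h2⟩)))))
  have hcount := count_gen (h := h) (U := U) (V := V) (Z := Z) hDat hw0 hw hh hG hX hY hbu hbv
    f hf (g' * B) (g' * A) W2 ?_ ?_
  · have e1 : δ / 2 ^ (g * K) * (h : ℝ) ^ (g' * A * B) ≤ (W2.card : ℝ) := hc0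
    have hX0 : (0 : ℝ) ≤ X' (2 * k + 1) := by linarith
    have e2 : ((g' * B : ℕ) + 1 : ℝ) * (2 ^ ((univ.image fun i => φu (tuD (ε i : Dg J g K B))).card +
        (univ.image fun i => φv (tvD (ε i : Dg J g K B))).card) *
        (T * (4 ^ (g' * B + g' * A) * X' (2 * k + 1) ^ (g' * B) * Y' (2 * k + 1) ^ (g' * A)))) ≤
        ((g' * B : ℕ) + 1 : ℝ) * (2 ^ (g' * B + g' * A) *
        (T * (4 ^ (g' * B + g' * A) * X' (2 * k + 1) ^ (g' * B) * Y' (2 * k + 1) ^ (g' * A)))) := by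
      have e3 : (2 : ℝ) ^ ((univ.image fun i => φu (tuD (ε i : Dg J g K B))).card +
        (univ.image fun i => φv (tvD (ε i : Dg J g K B))).card) ≤ 2 ^ (g' * B + g' * A) := by
        apply pow_le_pow_right₀ (by norm_num)
        rw [hcv']
        exact Nat.add_le_add_right hcu _
      gcongr
    have e3 := e1.trans (hcount.trans e2)
    rw [div_mul_eq_mul_div, div_le_iff₀ (by positivity)] at e3
    refine e3.trans (le_of_eq ?_)
    push_cast
    ring
  · intro p hp p' hp' hne m hm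
    obtain ⟨i, hi⟩ := Function.ne_iff.1 hne
    exact hdel p hp p' i hi m hm
  · intro p hp
    have hp1 : emb ε c0 p ∈ W1 := (mem_filter.1 hp).2
    obtain ⟨m, hm, hms⟩ := hW1 _ (mem_filter.1 hp1).1
    refine ⟨m, hm, hms.trans (hsubch p), ?_, ?_⟩
    · refine le_trans (sum_le_sum fun e _ => hml m hm e) ?_
      rw [sum_const, smul_eq_mul, mul_one]
      exact hUc p
    · rw [← hVc p, card_eq_sum_ones]
      refine sum_congr rfl fun e he => ?_
      refine le_antisymm (hml m hm e) ?_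
      obtain ⟨i, -, rfl⟩ := mem_image.1 he
      by_contra hcon
      have h0 : m (G.v (ε i) (emb ε c0 p)) = 0 := by omega
      apply hT1 _ hp1 _ (hε i).2
      refine ⟨m, hm, fun e he' => ?_⟩
      rw [mem_sdiff, mem_singleton]
      refine ⟨ch_mono G _ _ (hms he'), fun h4 => ?_⟩
      have h5 : G.v (j, (ε i : Dg J g K B).2.1, (ε i : Dg J g K B).2.2.1, ⟨0, hB⟩)
          (emb ε c0 p) = G.v (ε i) (emb ε c0 p) := by
        rw [G.v_eq]
        refine ⟨?_, fun _ _ => rfl⟩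
        simp only [tvD, Prod.mk.injEq, and_true]
        exact (hε i).1.symm
      rw [h4, h5, Finsupp.mem_support_iff] at he'
      exact he' h0

open Classical in
include G in
/-- **the main inequality** -/
theorem core {F : Type} [Field F] (hh : 1 ≤ h) (hJ : 1 ≤ J) (hg : 1 ≤ g) (hK : 1 ≤ K)
    (hB : 1 ≤ B) {Ω : Type} [Fintype Ω] (pr : Ω → ℝ) (h0 : ∀ ω, 0 ≤ pr ω) (h1 : ∑ ω, pr ω = 1)
    {Nt H : ℕ} (t : Ω → DT Nt) (ht : ∀ ω b, ((t ω).ones b).card ≤ H)
    {w0 w S k A g' T : ℕ} (hw0 : 1 ≤ w0) (hw : 1 ≤ w) (hA1 : 1 ≤ A) {X' Y' : ℕ → ℝ}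
    (hG : Grw w0 w S ((h : ℝ) ^ A) ((h : ℝ) ^ B) (2 * k + 1) X' Y')
    (hX : 1 ≤ X' (2 * k + 1)) (hY : 0 ≤ Y' (2 * k + 1))
    (f : Ω → Fin Nt → Fin T → Fin S → MvPolynomial E F)
    (hf : ∀ ω v i j, f ω v i j ∈ Cls w0 w S k)
    (hml : ∀ ω v, ∀ m ∈ (∑ i, ∏ j, f ω v i j).support, ∀ e, m e ≤ 1)
    {ε1 ε2 γ : ℝ}
    (hyes : ∀ S, P S → ∑ ω, (if (t ω).eval (ansH (fun v => ∑ i, ∏ j, f ω v i j) S) = false
      then pr ω else 0) ≤ ε1)
    (hno : ∀ S, ¬ P S → ∑ ω, (if (t ω).eval (ansH (fun v => ∑ i, ∏ j, f ω v i j) S) = true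
      then pr ω else 0) ≤ ε2)
    (hγ0 : 0 < γ) (hγ : γ ≤ 1 - (ε1 + ε2 + Nt / J))
    (hg' : (g' : ℝ) ≤ γ / (4 * H) * g) (hA : (A : ℝ) ≤ γ / (4 * H) * K) :
    γ / 2 * h ^ (g' * A * B) ≤ Nt * (2 ^ (g * K) * ((g' * B + 1) * (2 ^ (g' * B + g' * A) *
      (T * (4 ^ (g' * B + g' * A) * X' (2 * k + 1) ^ (g' * B) *
        Y' (2 * k + 1) ^ (g' * A)))))) := by
  have hne : Nonempty (Dg J g K B → Fin h) := ⟨fun _ => ⟨0, hh⟩⟩
  have hne2 : Nonempty (Fin g × Fin K) := ⟨(⟨0, hg⟩, ⟨0, hK⟩)⟩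
  have hH : (0 : ℝ) < H := by
    by_contra hcon
    have e1 : (H : ℝ) = 0 := le_antisymm (not_lt.1 hcon) (Nat.cast_nonneg _)
    rw [e1, mul_zero, div_zero, zero_mul] at hA
    have e2 : (1 : ℝ) ≤ A := by exact_mod_cast hA1
    linarith
  obtain ⟨ω, j, v, hW⟩ := hybrid (W := Dg J g K B → Fin h) (Bk := Fin g × Fin K) pr h0 h1 hJ t ht
    (fun ω c j => ansH (fun v => ∑ i, ∏ j, f ω v i j) (ch G c j))
    (fun ω c j x => ansH (fun v => ∑ i, ∏ j, f ω v i j)
      (ch G c (j + 1) \ {G.v (j, x.1, x.2, ⟨0, hB⟩) c}))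
    (fun ω c j v hv => by
      simp only [ansH, decide_eq_true_eq] at hv ⊢
      exact hv.mono (ch_mono G c j))
    (fun ω c j x v hv => by
      simp only [ansH, decide_eq_true_eq] at hv ⊢
      exact hv.mono sdiff_subset)
    (fun c j => hyes _ (ch_yes G c _))
    (fun c j x => hno _ (ch_no G c _ _)) hγ0 hγ
  set W : Finset (Dg J g K B → Fin h) := univ.filter fun c =>
    ansH (fun v => ∑ i, ∏ j, f ω v i j) (ch G c j) v = true ∧
      γ / 2 * Fintype.card (Fin g × Fin K) ≤ H * ((univ.filter fun x : Fin g × Fin K =>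
        ansH (fun v => ∑ i, ∏ j, f ω v i j)
          (ch G c (j + 1) \ {G.v (j, x.1, x.2, ⟨0, hB⟩) c}) v = false).card : ℝ) with hWd
  have hNt : (0 : ℝ) < Nt := by exact_mod_cast v.pos
  have key := count_active G hw0 hw hh hK hB hA1 hG hX hY j (f ω v) (hf ω v) (hml ω v) W
    (δ := γ / 2 / Nt) (β := γ / (2 * H)) (g' := g') (by positivity) (by
      rw [div_mul_eq_mul_div, div_le_iff₀ hNt]
      linarith)
    (fun c hc => by
      have h2 := (mem_filter.1 hc).2.1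
      simpa only [ansH, decide_eq_true_eq] using h2)
    (fun c hc => by
      have h2 := (mem_filter.1 hc).2.2
      have e1 : (univ.filter fun x : Fin g × Fin K => ansH (fun v => ∑ i, ∏ j, f ω v i j)
          (ch G c (j + 1) \ {G.v (j, x.1, x.2, ⟨0, hB⟩) c}) v = false) =
          univ.filter fun x : Fin g × Fin K =>
            ¬ Hit (ch G c (j + 1) \ {G.v (j, x.1, x.2, ⟨0, hB⟩) c}) (∑ i, ∏ j, f ω v i j) := by
        refine filter_congr fun x _ => ?_
        simp only [ansH, decide_eq_false_iff_not]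
      rw [e1, Fintype.card_prod, Fintype.card_fin, Fintype.card_fin] at h2
      rw [div_mul_eq_mul_div, div_le_iff₀ (by positivity)]
      push_cast at h2
      linarith)
    (by
      refine hg'.trans (le_of_eq ?_)
      ring)
    (by
      refine hA.trans (le_of_eq ?_)
      ring)
  rw [div_mul_eq_mul_div, div_le_iff₀ hNt] at key
  refine key.trans (le_of_eq ?_)
  ring

end chain

end Pool.CDTA
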