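import Pool.Agent.Helper59.CDT.Count

/-!
# Adaptive constant depth tests: the number of words of a set on which the coefficient matrix of a
sum of products is diagonal
-/

set_option autoImplicit false

namespace Pool.CDTA

open Finset MvPolynomial Pool.Agent.Helper87.D3 Pool.CDep Pool.CD Pool.Agent.Helper41.CD
  Pool.Agent.Helper59.CDT

section data

variable {E : Type} [DecidableEq E] {N h : ℕ}

/-- letters: `U p` and `V p` are the letters of the word `p`, `Z` the free variables -/
structure Dat (lu lv : Fin N → ℕ) (Z : Finset E) (U V : Wo N h → Finset E) : Prop where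
  ZU : ∀ p, Disjoint Z (U p)
  ZV : ∀ p, Disjoint Z (V p)
  UV : ∀ p p', Disjoint (U p) (V p')
  locU : ∀ e, ∃ J : Finset ℕ, J ⊆ univ.image lu ∧ J.card ≤ 1 ∧
    ∀ p p', (∀ i, lu i ∈ J → p i = p' i) → (e ∈ U p ↔ e ∈ U p')
  locV : ∀ e, ∃ J : Finset ℕ, J ⊆ univ.image lv ∧ J.card ≤ 1 ∧
    ∀ p p', (∀ i, lv i ∈ J → p i = p' i) → (e ∈ V p ↔ e ∈ V p')

end data

section coef

variable {E R : Type} [DecidableEq E] [CommRing R]

/-- the series of `f` -/
noncomputable def ser (Z Up Vp : Finset E) (f : MvPolynomial E R) : Ser (MvPolynomial E R) :=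
  sub (C : R →+* MvPolynomial E R) (fun e => if e ∈ Z then X e else 0)
    (fun e => if e ∈ Up then X e else 0) (fun e => if e ∈ Vp then X e else 0) f

theorem cf_ser {Z Up Vp : Finset E} (hZU : Disjoint Z Up) (hZV : Disjoint Z Vp)
    (hUV : Disjoint Up Vp) (a b : ℕ) (f : MvPolynomial E R) :
    cf a b (ser Z Up Vp f) = ∑ m ∈ f.support with (m.support ⊆ Z ∪ Up ∪ Vp ∧
      ∑ e ∈ Up, m e = a ∧ ∑ e ∈ Vp, m e = b), monomial m (coeff m f) := by
  rw [ser, sub, coe_eval₂Hom, eval₂_eq, cf_sum, Finset.sum_filter]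
  refine Finset.sum_congr rfl fun m _ => ?_
  rw [RingHom.comp_apply, cstHom_apply, cf_cst_mul]
  by_cases h1 : m.support ⊆ Z ∪ Up ∪ Vp
  · have h2 : ∀ i ∈ m.support, (cst (if i ∈ Z then (X i : MvPolynomial E R) else 0) +
        lam _ * cst (if i ∈ Up then X i else 0) + mu _ * cst (if i ∈ Vp then X i else 0)) ^ m i =
        lam _ ^ (if i ∈ Up then m i else 0) * mu _ ^ (if i ∈ Vp then m i else 0) *
          cst (X i ^ m i) := by
      intro i hi
      have hc : cst ((X i : MvPolynomial E R) ^ m i) = cst (X i) ^ m i := by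
        rw [← cstHom_apply, map_pow, cstHom_apply]
      rw [hc]
      have h3 := h1 hi
      simp only [mem_union] at h3
      rcases h3 with (h3 | h3) | h3
      · have h4 : i ∉ Up := Finset.disjoint_left.1 hZU h3
        have h5 : i ∉ Vp := Finset.disjoint_left.1 hZV h3
        rw [if_pos h3, if_neg h4, if_neg h5, if_neg h4, if_neg h5, cst_zero, mul_zero, mul_zero,
          add_zero, add_zero, pow_zero, pow_zero, one_mul, one_mul]
      · have h4 : i ∉ Z := Finset.disjoint_right.1 hZU h3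
        have h5 : i ∉ Vp := Finset.disjoint_left.1 hUV h3
        rw [if_pos h3, if_neg h4, if_neg h5, if_pos h3, if_neg h5, cst_zero, mul_zero, add_zero,
          zero_add, pow_zero, mul_one, mul_pow]
      · have h4 : i ∉ Z := Finset.disjoint_right.1 hZV h3
        have h5 : i ∉ Up := Finset.disjoint_right.1 hUV h3
        rw [if_pos h3, if_neg h4, if_neg h5, if_pos h3, if_neg h5, cst_zero, mul_zero,
          zero_add, zero_add, pow_zero, one_mul, mul_pow]
    rw [Finset.prod_congr rfl h2, Finset.prod_mul_distrib, Finset.prod_mul_distrib,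
      Finset.prod_pow_eq_pow_sum, Finset.prod_pow_eq_pow_sum]
    have h6 : ∏ i ∈ m.support, cst ((X i : MvPolynomial E R) ^ m i) = cst (monomial m 1) := by
      rw [monomial_eq, C_1, one_mul, Finsupp.prod, ← cstHom_apply, map_prod]
      rfl
    have h7 : ∀ Q : Finset E, ∑ i ∈ m.support, (if i ∈ Q then m i else 0) = ∑ e ∈ Q, m e := by
      intro Q
      rw [← Finset.sum_filter, Finset.filter_mem_eq_inter]
      refine Finset.sum_subset Finset.inter_subset_right fun e he hne => ?_
      by_contra h8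
      exact hne (Finset.mem_inter.2 ⟨Finsupp.mem_support_iff.2 h8, he⟩)
    rw [h6, h7, h7, cf_lam_pow_mul]
    by_cases h8 : a = ∑ e ∈ Up, m e ∧ b = ∑ e ∈ Vp, m e
    · rw [if_pos h8, if_pos ⟨h1, h8.1.symm, h8.2.symm⟩, C_mul_monomial, mul_one]
    · rw [if_neg h8, if_neg (fun h9 => h8 ⟨h9.2.1.symm, h9.2.2.symm⟩), mul_zero]
  · rw [if_neg (fun h9 => h1 h9.1)]
    obtain ⟨e, he, heS⟩ := Finset.not_subset.1 h1
    simp only [mem_union, not_or] at heS
    rw [Finset.prod_eq_zero he, cf_zero, mul_zero]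
    rw [if_neg heS.1.1, if_neg heS.1.2, if_neg heS.2, cst_zero, mul_zero, mul_zero, add_zero,
      add_zero, zero_pow (Finsupp.mem_support_iff.1 he)]

end coef

section count

variable {E F : Type} [DecidableEq E] [Field F] {N h : ℕ} {lu lv : Fin N → ℕ} {Z : Finset E}
  {U V : Wo N h → Finset E}

/-- the count for a diagonal coefficient matrix -/
theorem count_diag (hD : Dat lu lv Z U V) {w0 w S k A B T : ℕ} (hw0 : 1 ≤ w0) (hw : 1 ≤ w)
    (hh : 1 ≤ h) {X' Y' : ℕ → ℝ}
    (hG : Grw w0 w S ((h : ℝ) ^ A) ((h : ℝ) ^ B) (2 * k + 1) X' Y')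
    (hA : ∀ t, (univ.filter fun d => lu d = t).card ≤ A)
    (hB : ∀ t, (univ.filter fun d => lv d = t).card ≤ B)
    (f : Fin T → Fin S → MvPolynomial E F) (hf : ∀ i j, f i j ∈ Cls w0 w S k) (r E' : ℕ)
    (W : Finset (Wo N h))
    (hoff : ∀ p ∈ W, ∀ p' ∈ W, p ≠ p' → cf r E' (ser Z (U p) (V p') (∑ i, ∏ j, f i j)) = 0)
    (hdiag : ∀ p ∈ W, cf r E' (ser Z (U p) (V p) (∑ i, ∏ j, f i j)) ≠ 0) :
    (W.card : ℝ) ≤ 2 ^ ((univ.image lu).card + (univ.image lv).card) *
      (T * (4 ^ (r + E') * X' (2 * k + 1) ^ r * Y' (2 * k + 1) ^ E')) := by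
  classical
  set g : MvPolynomial E F := ∑ i, ∏ j, f i j with hg
  -- the lift
  set π : R1 E F →+* MvPolynomial E F := MvPolynomial.map (proj F) with hπ
  have hπs : Function.Surjective π := map_surjective _ (proj_surjective F)
  have h1 : ∀ i j, ∃ q : MvPolynomial E (R1 E F), q ∈ Cls w0 w S k ∧
      MvPolynomial.map π q = MvPolynomial.map (C : F →+* MvPolynomial E F) (f i j) := fun i j =>
    cls_lift π hπs k (cls_map _ k (hf i j))
  choose q hq hqf using h1
  set g' : MvPolynomial E (R1 E F) := ∑ i, ∏ j, q i j with hg'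
  have hgg : MvPolynomial.map π g' = MvPolynomial.map (C : F →+* MvPolynomial E F) g := by
    simp only [hg, hg', map_sum, map_prod, hqf]
  set ι : R1 E F →+* K1 E F := algebraMap (R1 E F) (K1 E F) with hι
  have hιi : Function.Injective ι := IsFractionRing.injective (R1 E F) (K1 E F)
  have hq' : ∀ i j, MvPolynomial.map ι (q i j) ∈ Cls w0 w S k := fun i j => cls_map _ k (hq i j)
  have hsum : (∑ i, ∏ j, MvPolynomial.map ι (q i j)) = MvPolynomial.map ι g' := by
    simp only [hg', map_sum, map_prod]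
  -- the data
  set c : E → R1 E F := fun e => if e ∈ Z then X e else 0 with hc
  set a : E → Wo N h → R1 E F := fun e p => if e ∈ U p then X e else 0 with ha
  set b : E → Wo N h → R1 E F := fun e p => if e ∈ V p then X e else 0 with hb
  have hNu := machine_words (K := K1 E F) (h := h) (lu := lu) (lv := lv) (w0 := w0) (w := w)
    (S := S) (k := k) hw0 hw (HU := (h : ℝ) ^ A) (HV := (h : ℝ) ^ B) (by positivity)
    (by positivity) hG (fun e => ι (c e)) (fun e p => ι (a e p)) (fun e p => ι (b e p))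
    (fun e => by
      obtain ⟨J, h1, h2, h3⟩ := hD.locU e
      refine ⟨J, h1, h2, fun p p' hp => ?_⟩
      simp only [ha, h3 p p' hp])
    (fun e => by
      obtain ⟨J, h1, h2, h3⟩ := hD.locV e
      refine ⟨J, h1, h2, fun p p' hp => ?_⟩
      simp only [hb, h3 p p' hp])
    T (fun i j => MvPolynomial.map ι (q i j)) hq' r E'
  rw [hsum] at hNu
  set Φ : Fw (K1 E F) N h := cf r E' (PhiW (fun e => ι (c e)) (fun e p => ι (a e p))
    (fun e p => ι (b e p)) (MvPolynomial.map ι g')) with hΦ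
  set κ : ℝ := T * (4 ^ (r + E') * X' (2 * k + 1) ^ r * Y' (2 * k + 1) ^ E') with hκ
  set nu := (univ.image lu).card with hnu
  set nv := (univ.image lv).card with hnv
  have h0v : (0 : ℝ) ≤ (h : ℝ) ^ B := by positivity
  have h0u : (0 : ℝ) ≤ (h : ℝ) ^ A := by positivity
  have h2 : RankLe (⌊(((2 ^ nv : ℕ) : ℝ) * ((2 ^ nu : ℕ) : ℝ)) * κ⌋₊) Φ := by
    refine Nu.rank (cV := 2 ^ nv) (cU := 2 ^ nu) ?_ ?_ h0v hNu (Nat.lt_floor_add_one _)
    · intro x g hg
      refine ⟨_, le_of_eq ?_, rank_WV hh hB hg⟩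
      push_cast
      rfl
    · intro x g hg
      refine ⟨_, le_of_eq ?_, rank_WU hh hA hg⟩
      push_cast
      rfl
  -- the matrix
  set M' : Matrix W W (R1 E F) := Matrix.of fun p p' =>
    cf r E' (sub (RingHom.id _) c (fun e => a e p.1) (fun e => b e p'.1) g') with hM'
  set D : W → MvPolynomial E F := fun p => cf r E' (ser Z (U p.1) (V p.1) g) with hDd
  have hMπ : π.mapMatrix M' = Matrix.diagonal D := by
    ext1 p p'
    rw [RingHom.mapMatrix_apply, Matrix.map_apply, hM', Matrix.of_apply]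
    have e1 := Pool.Agent.Helper59.CDT.cf_serMap π r E'
      (sub (RingHom.id _) c (fun e => a e p.1) (fun e => b e p'.1) g')
    rw [serMap_sub, RingHom.comp_id] at e1
    have e2 := sub_map π (RingHom.id (MvPolynomial E F)) (fun e => π (c e))
      (fun e => π (a e p.1)) (fun e => π (b e p'.1)) g'
    rw [RingHom.id_comp] at e2
    rw [← e2, hgg, sub_map, RingHom.id_comp] at e1
    rw [← e1]
    have e3 : (fun e => π (c e)) = fun e => if e ∈ Z then X e else 0 := by
      funext e
      simp only [hc]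
      split_ifs
      · rw [hπ, map_X]
      · rw [map_zero]
    have e4 : (fun e => π (a e p.1)) = fun e => if e ∈ U p.1 then X e else 0 := by
      funext e
      simp only [ha]
      split_ifs
      · rw [hπ, map_X]
      · rw [map_zero]
    have e5 : (fun e => π (b e p'.1)) = fun e => if e ∈ V p'.1 then X e else 0 := by
      funext e
      simp only [hb]
      split_ifs
      · rw [hπ, map_X]
      · rw [map_zero]
    rw [e3, e4, e5]
    by_cases hpp : p = p'
    · subst hpp
      rw [Matrix.diagonal_apply_eq]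
      rfl
    · rw [Matrix.diagonal_apply_ne _ hpp]
      exact hoff p.1 p.2 p'.1 p'.2 fun h => hpp (Subtype.ext h)
  have hdet' : M'.det ≠ 0 := by
    intro h0
    have e1 : π M'.det = (π.mapMatrix M').det := RingHom.map_det π M'
    rw [h0, map_zero, hMπ, Matrix.det_diagonal] at e1
    exact Finset.prod_ne_zero_iff.2 (fun p _ => hdiag p.1 p.2) e1.symm
  have hdet : (Matrix.of fun p p' : W => Φ (p.1, p'.1)).det ≠ 0 := by
    have e1 : (Matrix.of fun p p' : W => Φ (p.1, p'.1)) = ι.mapMatrix M' := by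
      ext1 p p'
      rw [RingHom.mapMatrix_apply, Matrix.map_apply, hM', Matrix.of_apply, Matrix.of_apply, hΦ]
      exact phiW_apply ι c a b g' r E' p.1 p'.1
    rw [e1, ← RingHom.map_det]
    intro h0
    apply hdet'
    apply hιi
    rw [h0, map_zero]
  have h3 := card_le_of_rankLe (rankLe_restrict h2 (fun p : W => p.1) (fun p : W => p.1)) hdet
  rw [Fintype.card_coe] at h3
  have hκ0 : 0 ≤ κ := Nu.nonneg h0v h0u hNu
  have h4 : (W.card : ℝ) ≤ (((2 ^ nv : ℕ) : ℝ) * ((2 ^ nu : ℕ) : ℝ)) * κ :=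
    (Nat.cast_le.2 h3).trans (Nat.floor_le (by positivity))
  refine h4.trans (le_of_eq ?_)
  push_cast
  rw [pow_add 2 nu]
  ring

/-- **the count**: `C` is a set of words; for `p ∈ C` some monomial of `f` which contains only
letters of `p` and free variables has degree `E'` in the `v` letters of `p` and at most `r'` in the
`u` letters; for different `p, p' ∈ C` no monomial contains only free variables, `u` letters of `p`
and `v` letters of `p'` -/
theorem count_gen (hD : Dat lu lv Z U V) {w0 w S k A B T : ℕ} (hw0 : 1 ≤ w0) (hw : 1 ≤ w)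
    (hh : 1 ≤ h) {X' Y' : ℕ → ℝ}
    (hG : Grw w0 w S ((h : ℝ) ^ A) ((h : ℝ) ^ B) (2 * k + 1) X' Y')
    (hX : 1 ≤ X' (2 * k + 1)) (hY : 0 ≤ Y' (2 * k + 1))
    (hA : ∀ t, (univ.filter fun d => lu d = t).card ≤ A)
    (hB : ∀ t, (univ.filter fun d => lv d = t).card ≤ B)
    (f : Fin T → Fin S → MvPolynomial E F) (hf : ∀ i j, f i j ∈ Cls w0 w S k) (r' E' : ℕ)
    (W : Finset (Wo N h))
    (hoff : ∀ p ∈ W, ∀ p' ∈ W, p ≠ p' → ∀ m ∈ (∑ i, ∏ j, f i j).support,
      ¬ m.support ⊆ Z ∪ U p ∪ V p')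
    (hdiag : ∀ p ∈ W, ∃ m ∈ (∑ i, ∏ j, f i j).support, m.support ⊆ Z ∪ U p ∪ V p ∧
      ∑ e ∈ U p, m e ≤ r' ∧ ∑ e ∈ V p, m e = E') :
    (W.card : ℝ) ≤ (r' + 1) * (2 ^ ((univ.image lu).card + (univ.image lv).card) *
      (T * (4 ^ (r' + E') * X' (2 * k + 1) ^ r' * Y' (2 * k + 1) ^ E'))) := by
  classical
  set g : MvPolynomial E F := ∑ i, ∏ j, f i j with hg
  choose! m hm hms hmr hmE using hdiag
  set κ : ℝ := 2 ^ ((univ.image lu).card + (univ.image lv).card) *
      (T * (4 ^ (r' + E') * X' (2 * k + 1) ^ r' * Y' (2 * k + 1) ^ E')) with hκ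
  have key : ∀ a ∈ range (r' + 1),
      ((W.filter fun p => ∑ e ∈ U p, m p e = a).card : ℝ) ≤ κ := by
    intro a ha
    have ha' : a ≤ r' := Nat.lt_succ_iff.1 (mem_range.1 ha)
    have h1 := count_diag hD hw0 hw hh hG hA hB f hf a E'
      (W.filter fun p => ∑ e ∈ U p, m p e = a) ?_ ?_
    · refine h1.trans ?_
      rw [hκ]
      have h2 : X' (2 * k + 1) ^ a ≤ X' (2 * k + 1) ^ r' := pow_le_pow_right₀ hX ha'
      have h3 : (4 : ℝ) ^ (a + E') ≤ 4 ^ (r' + E') :=
        pow_le_pow_right₀ (by norm_num) (by omega)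
      have h4 : (0 : ℝ) ≤ X' (2 * k + 1) ^ a := by positivity
      gcongr
    · intro p hp p' hp' hne
      rw [cf_ser (hD.ZU p) (hD.ZV p') (hD.UV p p')]
      refine Finset.sum_eq_zero fun m' hm' => ?_
      rw [mem_filter] at hm'
      exact absurd hm'.2.1 (hoff p (mem_filter.1 hp).1 p' (mem_filter.1 hp').1 hne m' hm'.1)
    · intro p hp
      obtain ⟨hpW, hpa⟩ := mem_filter.1 hp
      rw [cf_ser (hD.ZU p) (hD.ZV p) (hD.UV p p)]
      intro h0
      have h2 := congrArg (coeff (m p)) h0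
      rw [coeff_sum, coeff_zero, Finset.sum_eq_single (m p)] at h2
      · rw [coeff_monomial, if_pos rfl] at h2
        exact (mem_support_iff.1 (hm p hpW)) h2
      · intro m' _ hne
        rw [coeff_monomial, if_neg hne]
      · intro h3
        exact absurd (mem_filter.2 ⟨hm p hpW, hms p hpW, hpa, hmE p hpW⟩) h3
  have h2 : W.card = ∑ a ∈ range (r' + 1), (W.filter fun p => ∑ e ∈ U p, m p e = a).card :=
    card_eq_sum_card_fiberwise fun p hp => mem_coe.2 (mem_range.2 (Nat.lt_succ_of_le (hmr p hp)))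
  rw [h2]
  push_cast
  refine (sum_le_sum key).trans (le_of_eq ?_)
  rw [sum_const, card_range, nsmul_eq_mul]
  push_cast
  ring

end count

end Pool.CDTA
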