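import Pool.Agent.CDTA.Num

/-!
# Adaptive constant depth tests: the final computation
-/

set_option autoImplicit false

namespace Pool.CDTA

open Finset Pool.CD Pool.CDep

/-- from the counting inequality to the number of summands -/
theorem count_final_gain {m A0 B0 t P : ℕ} {c κ τ : ℝ} (hτ : 0 ≤ τ) (hP : 8 ≤ P)
    (hc : 4 * ((P ^ 2 : ℕ) : ℝ) ≤ c) (hB0 : 1 ≤ B0)
    (h : κ * (2 : ℝ) ^ (m * (t * (A0 * B0))) ≤ τ * (2 ^ (P * t * (P * A0)) * (2 ^ (t * (A0 + B0)) *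
      (2 ^ (t * (A0 + B0)) * 4 ^ (t * (A0 + B0)) *
        (((2 : ℝ) ^ (((m * A0 : ℕ) : ℝ) / 2 - c)) ^ (t * B0) *
          ((2 : ℝ) ^ (((m * B0 : ℕ) : ℝ) / 2 - c)) ^ (t * A0)))))) :
    κ * 2 ^ t ≤ τ := by
  have e1 : ((2 : ℝ) ^ (((m * A0 : ℕ) : ℝ) / 2 - c)) ^ (t * B0) =
      (2 : ℝ) ^ ((((m * A0 : ℕ) : ℝ) / 2 - c) * (t * B0 : ℕ)) := by
    rw [Real.rpow_mul (by norm_num), Real.rpow_natCast]
  have e2 : ((2 : ℝ) ^ (((m * B0 : ℕ) : ℝ) / 2 - c)) ^ (t * A0) =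
      (2 : ℝ) ^ ((((m * B0 : ℕ) : ℝ) / 2 - c) * (t * A0 : ℕ)) := by
    rw [Real.rpow_mul (by norm_num), Real.rpow_natCast]
  have e3 : (4 : ℝ) ^ (t * (A0 + B0)) = (2 : ℝ) ^ (((2 * (t * (A0 + B0)) : ℕ) : ℝ)) := by
    rw [Real.rpow_natCast, pow_mul (2 : ℝ) 2]
    norm_num
  have e4 : (2 : ℝ) ^ (t * (A0 + B0)) = (2 : ℝ) ^ (((t * (A0 + B0) : ℕ) : ℝ)) := by
    rw [Real.rpow_natCast]
  have e5 : (2 : ℝ) ^ (P * t * (P * A0)) = (2 : ℝ) ^ (((P * t * (P * A0) : ℕ) : ℝ)) := by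
    rw [Real.rpow_natCast]
  have e6 : (2 : ℝ) ^ (m * (t * (A0 * B0))) = (2 : ℝ) ^ (((m * (t * (A0 * B0)) : ℕ) : ℝ)) := by
    rw [Real.rpow_natCast]
  rw [e1, e2, e3, e4, e5, e6, ← Real.rpow_add (by norm_num), ← Real.rpow_add (by norm_num),
    ← Real.rpow_add (by norm_num), ← Real.rpow_add (by norm_num), ← Real.rpow_add (by norm_num)]
    at h
  have h2 : (0 : ℝ) < (2 : ℝ) ^ (((m * (t * (A0 * B0)) : ℕ) : ℝ)) := Real.rpow_pos_of_pos (by norm_num) _
  have h3 : κ * (2 : ℝ) ^ (((m * (t * (A0 * B0)) : ℕ) : ℝ)) ≤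
      τ * (2 : ℝ) ^ (-(t : ℝ)) * (2 : ℝ) ^ (((m * (t * (A0 * B0)) : ℕ) : ℝ)) := by
    refine h.trans ?_
    have k0 : τ * (2 : ℝ) ^ (-(t : ℝ)) * (2 : ℝ) ^ (((m * (t * (A0 * B0)) : ℕ) : ℝ)) =
        τ * (2 : ℝ) ^ (-(t : ℝ) + ((m * (t * (A0 * B0)) : ℕ) : ℝ)) := by
      rw [Real.rpow_add (by norm_num), mul_assoc]
    rw [k0]
    apply mul_le_mul_of_nonneg_left _ hτ
    apply Real.rpow_le_rpow_of_exponent_le (by norm_num)
    push_cast
    push_cast at hc
    have hPr : (8 : ℝ) ≤ P := by exact_mod_cast hP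
    have hB : (1 : ℝ) ≤ B0 := by exact_mod_cast hB0
    have hA : (0 : ℝ) ≤ A0 := Nat.cast_nonneg _
    have ht : (0 : ℝ) ≤ t := Nat.cast_nonneg _
    -- everything is `t * (A0 + B0)` times something
    have k1 : (0 : ℝ) ≤ t * (A0 + B0) := by positivity
    have k2 : (c - 4 * P ^ 2) * (t * (A0 + B0)) ≥ 0 := mul_nonneg (by linarith) k1
    have k3 : (0 : ℝ) ≤ t * B0 * P ^ 2 := by positivity
    have k4 : (t : ℝ) ≤ t * (A0 + B0) := by nlinarith
    have k5 : 0 ≤ ((P : ℝ) ^ 2 - 64) * (t * (A0 + B0)) := mul_nonneg (by nlinarith) k1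
    nlinarith
  have h4 := le_of_mul_le_mul_right h3 h2
  rw [Real.rpow_neg (by norm_num), Real.rpow_natCast, ← div_eq_mul_inv,
    le_div_iff₀ (by positivity)] at h4
  exact h4

/-- the final real inequality -/
theorem log_final_gain {n d N T h J K B0 A0 m P : ℕ} {C' G α : ℝ} (hC' : 0 < C')
    (hG : Real.log 2 ≤ G) (hα0 : 0 ≤ α) (hα : α < 1) (hN : 1 ≤ N) (hT : 1 ≤ T) (hh : 1 ≤ h)
    (hJ : (J : ℝ) ≤ 3 * N / (1 - α)) (hP : (P : ℝ) ≤ 9 * (h / (1 - α))) (hB0A : B0 ≤ A0)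
    (hK : K = P * A0) (hP1 : 1 ≤ P) (hm : 1 ≤ m) (hJ1 : 1 ≤ J) (hB0 : 1 ≤ B0)
    (hA : ((m * A0 : ℕ) : ℝ) ≤ ((P ^ 2 : ℕ) : ℝ) * (C' * G))
    (hcore : ∀ t : ℕ, 1 ≤ t → 2 * (J * (P * t)) * (B0 * (2 ^ m) ^ K + K * (2 ^ m) ^ B0) + d ≤ n →
      (1 - α) / 4 * 2 ^ t ≤ N * T) :
    n / N * Real.exp (-((2082 + 2 * d + 1458 * C') * ((h / (1 - α)) ^ 3 * G))) ≤
      (2082 + 2 * d + 1458 * C') * Real.log (2 * N * T) := by
  set ρ : ℝ := h / (1 - α) with hρ
  set E : ℝ := ρ ^ 3 * G with hE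
  set C : ℝ := 2082 + 2 * d + 1458 * C' with hC
  set L : ℝ := Real.log (2 * N * T) with hL
  have hl2 : (0.6931 : ℝ) < Real.log 2 := by
    have := Real.log_two_gt_d9
    linarith
  have hl2' : Real.log 2 < 0.6932 := by
    have := Real.log_two_lt_d9
    linarith
  have hα1 : 0 < 1 - α := by linarith
  have hhr : (1 : ℝ) ≤ h := by exact_mod_cast hh
  have hNr : (1 : ℝ) ≤ N := by exact_mod_cast hN
  have hTr : (1 : ℝ) ≤ T := by exact_mod_cast hT
  have hd0 : (0 : ℝ) ≤ d := Nat.cast_nonneg d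
  have hinv : 1 / (1 - α) ≤ ρ := by
    rw [hρ]
    exact div_le_div_of_nonneg_right hhr hα1.le
  have hinv1 : 1 ≤ 1 / (1 - α) := by
    rw [le_div_iff₀ hα1]
    linarith
  have hρ1 : 1 ≤ ρ := hinv1.trans hinv
  have hρ2 : ρ ^ 2 ≤ ρ ^ 3 := pow_le_pow_right₀ hρ1 (by norm_num)
  have hρ3 : ρ ≤ ρ ^ 3 := by
    calc ρ = ρ ^ 1 := (pow_one ρ).symm
      _ ≤ ρ ^ 3 := pow_le_pow_right₀ hρ1 (by norm_num)
  have hG0 : 0.6931 ≤ G := by linarith
  have hE3 : 0.6931 * ρ ^ 3 ≤ E := by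
    rw [hE, mul_comm]
    exact mul_le_mul_of_nonneg_left hG0 (by positivity)
  have hE0 : 0 ≤ E := by
    have : 0 ≤ ρ ^ 3 := by positivity
    linarith
  have hEe : E ≤ Real.exp E := by
    have := Real.add_one_le_exp E
    linarith
  have hNT : (1 : ℝ) ≤ N * T := by nlinarith
  have hL2 : Real.log 2 ≤ L := by
    rw [hL]
    apply Real.log_le_log (by norm_num)
    nlinarith
  have hL0 : 0 ≤ L := by linarith
  -- the parameters
  have hPr : (P : ℝ) ≤ 9 * ρ := hP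
  have hP0 : (0 : ℝ) ≤ P := Nat.cast_nonneg P
  have hK2 : (((2 : ℝ) ^ m) ^ K) ≤ Real.exp (729 * C' * E) := by
    have e1 : ((2 : ℝ) ^ m) ^ K = Real.exp ((m * K : ℕ) * Real.log 2) := by
      rw [Real.exp_nat_mul, Real.exp_log (by norm_num), pow_mul]
    rw [e1]
    apply Real.exp_le_exp.2
    have e2 : ((m * K : ℕ) : ℝ) = P * ((m * A0 : ℕ) : ℝ) := by
      rw [hK]
      push_cast
      ring
    have e3 : ((m * K : ℕ) : ℝ) ≤ 729 * C' * E := by
      rw [e2]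
      calc (P : ℝ) * ((m * A0 : ℕ) : ℝ) ≤ P * (((P ^ 2 : ℕ) : ℝ) * (C' * G)) :=
            mul_le_mul_of_nonneg_left hA hP0
        _ = (P : ℝ) ^ 3 * (C' * G) := by push_cast; ring
        _ ≤ (9 * ρ) ^ 3 * (C' * G) := by
            apply mul_le_mul_of_nonneg_right (pow_le_pow_left₀ hP0 hPr 3)
            exact mul_nonneg hC'.le (by linarith)
        _ = 729 * C' * E := by rw [hE]; ring
    have e4 : (0 : ℝ) ≤ ((m * K : ℕ) : ℝ) := Nat.cast_nonneg _
    have e5 : ((m * K : ℕ) : ℝ) * Real.log 2 ≤ ((m * K : ℕ) : ℝ) * 1 :=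
      mul_le_mul_of_nonneg_left (by linarith) e4
    linarith
  set q : ℕ := B0 * (2 ^ m) ^ K + K * (2 ^ m) ^ B0 with hq
  have hA0K : A0 ≤ K := by
    rw [hK]
    exact Nat.le_mul_of_pos_left _ hP1
  have hB0K : B0 ≤ K := hB0A.trans hA0K
  have hKK : K ≤ (2 ^ m) ^ K := by
    have h1 : K < 2 ^ K := Nat.lt_two_pow_self
    have h2 : 2 ^ K ≤ (2 ^ m) ^ K := Nat.pow_le_pow_left (by
      calc 2 = 2 ^ 1 := rfl
        _ ≤ 2 ^ m := Nat.pow_le_pow_right (by norm_num) hm) K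
    omega
  have hqle : q ≤ 2 * ((2 ^ m) ^ K * (2 ^ m) ^ K) := by
    have h1 : B0 * (2 ^ m) ^ K ≤ (2 ^ m) ^ K * (2 ^ m) ^ K :=
      Nat.mul_le_mul_right _ (hB0K.trans hKK)
    have h2 : K * (2 ^ m) ^ B0 ≤ (2 ^ m) ^ K * (2 ^ m) ^ K :=
      Nat.mul_le_mul hKK (Nat.pow_le_pow_right (by positivity) hB0K)
    omega
  have hqr : (q : ℝ) ≤ 2 * (Real.exp (729 * C' * E) * Real.exp (729 * C' * E)) := by
    have h1 : (q : ℝ) ≤ 2 * (((2 : ℝ) ^ m) ^ K * ((2 : ℝ) ^ m) ^ K) := by exact_mod_cast hqle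
    have h2 : ((2 : ℝ) ^ m) ^ K * ((2 : ℝ) ^ m) ^ K ≤
        Real.exp (729 * C' * E) * Real.exp (729 * C' * E) :=
      mul_le_mul hK2 hK2 (by positivity) (Real.exp_pos _).le
    linarith
  rw [← Real.exp_add] at hqr
  set D : ℕ := 2 * (J * P) * q with hD
  have hDr : (D : ℝ) ≤ N * (160 * Real.exp ((1 + 1458 * C') * E)) := by
    have h1 : (D : ℝ) = 2 * ((J : ℝ) * P) * q := by rw [hD]; push_cast; ring
    have h2 : (J : ℝ) * P ≤ 3 * N * ρ * (9 * ρ) := by
      apply mul_le_mul _ hPr hP0 (by positivity)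
      refine hJ.trans ?_
      rw [mul_div_assoc, show (N : ℝ) / (1 - α) = N * (1 / (1 - α)) by ring]
      have : (N : ℝ) * (1 / (1 - α)) ≤ N * ρ := mul_le_mul_of_nonneg_left hinv (by linarith)
      linarith
    have h3 : 2 * ((J : ℝ) * P) * q ≤
        2 * (3 * N * ρ * (9 * ρ)) * (2 * Real.exp (729 * C' * E + 729 * C' * E)) := by
      apply mul_le_mul _ hqr (Nat.cast_nonneg _) (by positivity)
      linarith
    have h4 : 2 * (3 * N * ρ * (9 * ρ)) * (2 * Real.exp (729 * C' * E + 729 * C' * E)) =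
        N * (108 * ρ ^ 2 * Real.exp (729 * C' * E + 729 * C' * E)) := by ring
    rw [h1]
    refine h3.trans ?_
    rw [h4]
    apply mul_le_mul_of_nonneg_left _ (by linarith)
    have h5 : (1 + 1458 * C') * E = E + (729 * C' * E + 729 * C' * E) := by ring
    rw [h5, Real.exp_add E]
    have h6 : 108 * ρ ^ 2 ≤ 160 * Real.exp E := by
      have k1 : 0.6931 * ρ ^ 2 ≤ Real.exp E := by linarith
      have k2 : 0 ≤ ρ ^ 2 := by positivity
      linarith
    calc 108 * ρ ^ 2 * Real.exp (729 * C' * E + 729 * C' * E)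
        ≤ 160 * Real.exp E * Real.exp (729 * C' * E + 729 * C' * E) :=
          mul_le_mul_of_nonneg_right h6 (Real.exp_pos _).le
      _ = _ := by ring
  have hq1 : 1 ≤ q := by
    have h1 : 1 ≤ (2 ^ m) ^ K := Nat.one_le_pow _ _ (by positivity)
    have h2 : 1 ≤ B0 * (2 ^ m) ^ K := Nat.mul_pos hB0 h1
    omega
  have hD1 : 1 ≤ D := by
    rw [hD]
    exact Nat.mul_pos (Nat.mul_pos (by norm_num) (Nat.mul_pos hJ1 hP1)) hq1
  set t : ℕ := (n - d) / D with ht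
  have hkey : (1 - α) / 4 * 2 ^ t ≤ N * T := by
    rcases Nat.eq_zero_or_pos t with ht0 | htpos
    · rw [ht0, pow_zero]
      linarith
    · apply hcore t htpos
      have h1 : t * D ≤ n - d := Nat.div_mul_le_self _ _
      have h2 : 1 ≤ t * D := Nat.mul_pos htpos hD1
      have h3 : 2 * (J * (P * t)) * q = t * D := by rw [hD]; ring
      rw [h3]
      omega
  have hn : (n : ℝ) ≤ d + D * (t + 1) := by
    have e1 : n - d < (t + 1) * D := by
      have e2 := Nat.div_add_mod (n - d) D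
      have e3 := Nat.mod_lt (n - d) hD1
      rw [← ht] at e2
      nlinarith
    have e2 : n ≤ d + D * (t + 1) := by
      have : (t + 1) * D = D * (t + 1) := by ring
      omega
    exact_mod_cast e2
  have ht1 : ((t : ℝ) + 1) * Real.log 2 ≤ 4 * L + ρ := by
    have e1 : (2 : ℝ) ^ (t + 1) ≤ 8 * (N * T) * (1 / (1 - α)) := by
      rw [pow_succ, mul_one_div, le_div_iff₀ hα1]
      linarith
    have e2 : Real.log ((2 : ℝ) ^ (t + 1)) ≤ Real.log (8 * (N * T) * (1 / (1 - α))) :=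
      Real.log_le_log (by positivity) e1
    rw [Real.log_pow, Real.log_mul (by positivity) (by positivity),
      Real.log_mul (by norm_num) (by positivity)] at e2
    have e3 : Real.log 8 = 3 * Real.log 2 := by
      rw [show (8 : ℝ) = 2 ^ 3 by norm_num, Real.log_pow]
      norm_num
    have e4 : Real.log (N * T) ≤ L := by
      rw [hL]
      apply Real.log_le_log (by positivity)
      nlinarith
    have e5 : Real.log (1 / (1 - α)) ≤ ρ := by
      have := Real.log_le_sub_one_of_pos (show 0 < 1 / (1 - α) by positivity)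
      linarith
    push_cast at e2
    linarith
  have hEx : 0 < Real.exp E := Real.exp_pos _
  have hEx1 : 1 ≤ Real.exp E := Real.one_le_exp hE0
  have ht2 : (t : ℝ) + 1 ≤ 13 * (Real.exp E * L) := by
    have e1 : 0.6931 * ρ ≤ Real.exp E := by linarith
    have e2 : 0.6931 * L ≤ Real.exp E * L := mul_le_mul_of_nonneg_right (by linarith) hL0
    have e4 : 0.6931 * (0.6931 * ρ) ≤ Real.exp E * L := by
      have h1 : 0.6931 * (0.6931 * ρ) ≤ 0.6931 * Real.exp E := by linarith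
      have h2 : 0.6931 * Real.exp E ≤ L * Real.exp E := mul_le_mul_of_nonneg_right (by linarith) hEx.le
      linarith
    have e5 : L ≤ Real.exp E * L := by
      calc L = 1 * L := (one_mul L).symm
        _ ≤ _ := mul_le_mul_of_nonneg_right hEx1 hL0
    have e6 : (0 : ℝ) ≤ (t : ℝ) + 1 := by positivity
    have e7 : ((t : ℝ) + 1) * 0.6931 ≤ 4 * L + ρ :=
      (mul_le_mul_of_nonneg_left hl2.le e6).trans ht1
    linarith
  have hfin : (n : ℝ) ≤ d + N * (2080 * Real.exp ((2 + 1458 * C') * E) * L) := by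
    have e1 : (D : ℝ) * (t + 1) ≤ N * (160 * Real.exp ((1 + 1458 * C') * E)) *
        (13 * (Real.exp E * L)) :=
      mul_le_mul hDr ht2 (by positivity) (by positivity)
    have e2 : Real.exp ((2 + 1458 * C') * E) = Real.exp ((1 + 1458 * C') * E) * Real.exp E := by
      rw [← Real.exp_add]
      congr 1
      ring
    rw [e2]
    have e3 : N * (160 * Real.exp ((1 + 1458 * C') * E)) * (13 * (Real.exp E * L)) =
      N * (2080 * (Real.exp ((1 + 1458 * C') * E) * Real.exp E) * L) := by ring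
    linarith
  have hC1 : Real.exp (-(C * E)) ≤ 1 := by
    apply Real.exp_le_one_iff.2
    have : 0 ≤ C * E := mul_nonneg (by positivity) hE0
    linarith
  have hC2 : Real.exp ((2 + 1458 * C') * E) * Real.exp (-(C * E)) ≤ 1 := by
    rw [← Real.exp_add]
    apply Real.exp_le_one_iff.2
    have : (2 + 1458 * C') * E + -(C * E) = -((2080 + 2 * d) * E) := by rw [hC]; ring
    rw [this]
    have : 0 ≤ (2080 + 2 * (d : ℝ)) * E := mul_nonneg (by positivity) hE0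
    linarith
  have hstep : n / N * Real.exp (-(C * E)) ≤ d + 2080 * L := by
    have e1 : (n : ℝ) / N ≤ d + 2080 * Real.exp ((2 + 1458 * C') * E) * L := by
      rw [div_le_iff₀ (by linarith)]
      have h1 : (d : ℝ) ≤ d * N := le_mul_of_one_le_right hd0 hNr
      have h2 : (d + 2080 * Real.exp ((2 + 1458 * C') * E) * L) * N =
        d * N + N * (2080 * Real.exp ((2 + 1458 * C') * E) * L) := by ring
      rw [h2]
      linarith
    calc n / N * Real.exp (-(C * E))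
        ≤ (d + 2080 * Real.exp ((2 + 1458 * C') * E) * L) * Real.exp (-(C * E)) :=
          mul_le_mul_of_nonneg_right e1 (Real.exp_pos _).le
      _ = d * Real.exp (-(C * E)) +
          2080 * L * (Real.exp ((2 + 1458 * C') * E) * Real.exp (-(C * E))) := by ring
      _ ≤ d * 1 + 2080 * L * 1 := by
          apply add_le_add
          · exact mul_le_mul_of_nonneg_left hC1 hd0
          · exact mul_le_mul_of_nonneg_left hC2 (by positivity)
      _ = d + 2080 * L := by ring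
  refine hstep.trans ?_
  have e1 : (d : ℝ) ≤ 2 * d * L := by
    have k1 : (d : ℝ) * 1 ≤ d * (2 * L) := mul_le_mul_of_nonneg_left (by linarith) hd0
    linarith
  have e2 : 0 ≤ (2 + 1458 * C') * L := mul_nonneg (by positivity) hL0
  have e3 : C * L = 2080 * L + 2 * d * L + (2 + 1458 * C') * L := by rw [hC]; ring
  linarith

end Pool.CDTA
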