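import Pool.Agent.CDTA.Test
import Pool.Agent.CDTA.FinalNum

/-!
# Adaptive constant depth tests for `k`-SAT: the theorem
-/

set_option autoImplicit false

namespace Pool.CDTA

open Finset MvPolynomial Pool.AD Pool.SatDet Pool.CDep Pool.CD Pool.Agent.Helper41.CD
  Pool.Agent.Helper59.CDT

theorem grw_one_le {w0 w S : ℕ} {HU HV : ℝ} {L : ℕ} {X Y : ℕ → ℝ} (hw0 : 1 ≤ w0) (hw : 1 ≤ w)
    (hG : Grw w0 w S HU HV L X Y) : ∀ i, 1 ≤ i → i ≤ L → 1 ≤ X i ∧ 1 ≤ Y i := by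
  have h0 : (1 : ℝ) ≤ w0 := by exact_mod_cast hw0
  have h1 : (1 : ℝ) ≤ w := by exact_mod_cast hw
  intro i hi
  induction i, hi using Nat.le_induction with
  | base => intro _; exact ⟨h0.trans hG.X1, h0.trans hG.Y1⟩
  | succ i hi ih =>
    intro hiL
    obtain ⟨h2, h3⟩ := ih (by omega)
    have h4 := hG.X2 i hi hiL
    have h5 := hG.Y2 i hi hiL
    constructor
    · nlinarith
    · nlinarith

open Classical in
/-- **adaptive constant depth tests for `k`-SAT** (`k = d + 1`), two-sided error -/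
theorem cdta (d k : ℕ) (hd : 2 ≤ d) : ∃ C : ℝ, 0 < C ∧
    ∀ (F : Type) [Field F] (Ω : Type) [Fintype Ω] (n N h T S w w0 : ℕ) (ε1 ε2 : ℝ)
      (p : Ω → ℝ) (f : Ω → Fin N → MvPolynomial (Clause n (d + 1)) F) (t : Ω → DT N),
      1 ≤ N → 1 ≤ h → 1 ≤ T → 2 ≤ S → 1 ≤ w → w ≤ S → 1 ≤ w0 → 0 ≤ ε1 → 0 ≤ ε2 →
      ε1 + ε2 < 1 → (∀ ω, 0 ≤ p ω) → ∑ ω, p ω = 1 →
      (∀ ω v, ∃ q : Fin T → Fin S → MvPolynomial (Clause n (d + 1)) F,
        (∀ i j, q i j ∈ Cls w0 w S k) ∧ f ω v = ∑ i, ∏ j, q i j) →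
      (∀ ω v, ∀ m ∈ (f ω v).support, ∀ c, m c ≤ 1) →
      (∀ ω b, ((t ω).ones b).card ≤ h) →
      (∀ φ : Finset (Clause n (d + 1)), (∃ a : Fin n → Bool, ∀ c ∈ φ, Sats a c) →
        ∑ ω, (if (t ω).eval (fun v => decide (onF φ (f ω v) ≠ 0)) = false then p ω else 0) ≤ ε1) →
      (∀ φ : Finset (Clause n (d + 1)), (¬ ∃ a : Fin n → Bool, ∀ c ∈ φ, Sats a c) →
        ∑ ω, (if (t ω).eval (fun v => decide (onF φ (f ω v) ≠ 0)) = true then p ω else 0) ≤ ε2) →
      n / N * Real.exp (-(C * ((h / (1 - ε1 - ε2)) ^ 3 *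
        (Real.log S ^ (1 - 1 / ((Nat.fib (2 * k + 4) : ℝ) - 1)) *
          Real.log (2 * w) ^ (1 / ((Nat.fib (2 * k + 4) : ℝ) - 1)) + Real.log w0)))) ≤
        C * Real.log (2 * N * T) := by
  obtain ⟨C', hC', hnum⟩ := numbers_gain k
  refine ⟨2082 + 2 * d + 1458 * C', by positivity, ?_⟩
  intro F _ Ω _ n N h T S w w0 ε1 ε2 p f t hN hh hT hS hw hwS hw0 hε1 hε2 hε hp hp1 hf hml ht
    hyes hno
  set α : ℝ := ε1 + ε2 with hα
  have hα' : 1 - ε1 - ε2 = 1 - α := by rw [hα]; ring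
  rw [hα']
  have hα0 : 0 ≤ α := add_nonneg hε1 hε2
  have hα1 : 0 < 1 - α := by linarith
  have hhr : (1 : ℝ) ≤ h := by exact_mod_cast hh
  have hNr : (1 : ℝ) ≤ N := by exact_mod_cast hN
  have hTr : (1 : ℝ) ≤ T := by exact_mod_cast hT
  set ρ : ℝ := h / (1 - α) with hρ
  have hρ1 : 1 ≤ ρ := by
    rw [hρ, le_div_iff₀ hα1]
    linarith
  set P : ℕ := ⌈8 * ρ⌉₊ with hP
  have hP1 : 8 * ρ ≤ P := Nat.le_ceil _
  have hP2 : (P : ℝ) ≤ 9 * ρ := by
    have := (Nat.ceil_lt_add_one (show 0 ≤ 8 * ρ by linarith)).le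
    rw [← hP] at this
    linarith
  have hP8 : 8 ≤ P := by
    have : (8 : ℝ) ≤ P := by linarith
    exact_mod_cast this
  set J : ℕ := ⌈2 * N / (1 - α)⌉₊ with hJ
  have hJ1 : 2 * N / (1 - α) ≤ J := Nat.le_ceil _
  have hJ0 : 0 ≤ 2 * N / (1 - α) := by positivity
  have hJ2 : (J : ℝ) ≤ 3 * N / (1 - α) := by
    have e1 := (Nat.ceil_lt_add_one hJ0).le
    rw [← hJ] at e1
    have e2 : 1 ≤ N / (1 - α) := by
      rw [le_div_iff₀ hα1]
      linarith
    have e3 : 3 * (N : ℝ) / (1 - α) = 2 * N / (1 - α) + N / (1 - α) := by ring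
    linarith
  have hJpos : 1 ≤ J := by
    have e1 : (0 : ℝ) < J := lt_of_lt_of_le (by positivity) hJ1
    exact_mod_cast e1
  have hJr : (0 : ℝ) < J := by exact_mod_cast hJpos
  obtain ⟨A0, B0, m, c, X, Y, hc, hB0, hBA, hm, hAle, hG, hXL, hYL⟩ :=
    hnum (P ^ 2) S w w0 (Nat.one_le_pow _ _ (by omega)) hS hw hwS hw0
  have hone := grw_one_le hw0 hw hG (2 * k + 1) (by omega) le_rfl
  have hA01 : 1 ≤ A0 := hB0.trans hBA
  -- the exponent
  have hGr : Real.log 2 ≤ Real.log S ^ (1 - 1 / ((Nat.fib (2 * k + 4) : ℝ) - 1)) *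
      Real.log (2 * w) ^ (1 / ((Nat.fib (2 * k + 4) : ℝ) - 1)) + Real.log w0 := by
    have hF3 : 3 ≤ Nat.fib (2 * k + 4) := by
      have h1 : Nat.fib 4 ≤ Nat.fib (2 * k + 4) := Nat.fib_mono (by omega)
      exact h1
    have hFr : (3 : ℝ) ≤ Nat.fib (2 * k + 4) := by exact_mod_cast hF3
    set η : ℝ := 1 / ((Nat.fib (2 * k + 4) : ℝ) - 1) with hη
    have hη0 : 0 ≤ η := by rw [hη]; exact div_nonneg zero_le_one (by linarith)
    have hη1 : η ≤ 1 := by
      rw [hη, div_le_one (by linarith)]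
      linarith
    have hl : 0 < Real.log 2 := Real.log_pos (by norm_num)
    have hSr : Real.log 2 ≤ Real.log S := by
      apply Real.log_le_log (by norm_num)
      exact_mod_cast hS
    have hwr : Real.log 2 ≤ Real.log (2 * w) := by
      apply Real.log_le_log (by norm_num)
      have : (1 : ℝ) ≤ w := by exact_mod_cast hw
      linarith
    have e1 : Real.log 2 = Real.log 2 ^ (1 - η) * Real.log 2 ^ η := by
      rw [← Real.rpow_add hl, sub_add_cancel, Real.rpow_one]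
    have e2 : Real.log 2 ^ (1 - η) * Real.log 2 ^ η ≤
        Real.log S ^ (1 - η) * Real.log (2 * w) ^ η :=
      mul_le_mul (Real.rpow_le_rpow hl.le hSr (by linarith)) (Real.rpow_le_rpow hl.le hwr hη0)
        (by positivity) (by positivity)
    have e3 : 0 ≤ Real.log w0 := Real.log_natCast_nonneg w0
    linarith
  refine log_final_gain (J := J) (K := P * A0) (B0 := B0) (A0 := A0) (m := m) (P := P) hC' hGr hα0
    (by linarith) hN hT hh hJ2 hP2 hBA rfl (by omega) (by omega) hJpos hB0 hAle ?_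
  intro s hs hn
  have key := core_sat (n := n) (d := d) (J := J) (g := P * s) (K := P * A0) (B := B0) (h := 2 ^ m)
    hd (Nat.one_le_pow _ _ (by norm_num)) hJpos (Nat.mul_pos (by omega) hs)
    (Nat.mul_pos (by omega) hA01) hB0 (by
      refine le_trans (le_of_eq ?_) hn
      ring) p hp hp1 t ht hw0 hw hA01 (g' := s) (γ := (1 - α) / 2) (ε1 := ε1) (ε2 := ε2) (k := k)
      (X' := X) (Y' := Y) (S := S) (T := T) (A := A0)
      (by push_cast; rw [← pow_mul, ← pow_mul]; exact hG) hone.1 (by linarith [hone.2]) f hf hml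
      hyes hno (by linarith) ?_ ?_ ?_
  · apply count_final_gain (m := m) (A0 := A0) (B0 := B0) (P := P) (c := c) (by positivity) hP8 hc
      hB0
    rw [hXL, hYL] at key
    have e1 : ((2 ^ m : ℕ) : ℝ) ^ (s * A0 * B0) = (2 : ℝ) ^ (m * (s * (A0 * B0))) := by
      push_cast
      rw [← pow_mul, mul_assoc s]
    have e2 : s * B0 + s * A0 = s * (A0 + B0) := by ring
    have e3 : (((s : ℝ) * B0 + 1)) ≤ 2 ^ (s * (A0 + B0)) := by
      have h1 : s * B0 + 1 ≤ 2 ^ (s * (A0 + B0)) := by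
        have h2 : s * B0 < 2 ^ (s * B0) := Nat.lt_two_pow_self
        have h3 : 2 ^ (s * B0) ≤ 2 ^ (s * (A0 + B0)) :=
          Nat.pow_le_pow_right (by norm_num) (Nat.mul_le_mul_left _ (by omega))
        omega
      exact_mod_cast h1
    rw [e1, e2] at key
    have e4 : (1 - α) / 2 / 2 = (1 - α) / 4 := by ring
    rw [e4] at key
    refine key.trans ?_
    set XX := ((2 : ℝ) ^ (((m * A0 : ℕ) : ℝ) / 2 - c)) ^ (s * B0) with hXX
    set YY := ((2 : ℝ) ^ (((m * B0 : ℕ) : ℝ) / 2 - c)) ^ (s * A0) with hYY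
    have hXX0 : 0 ≤ XX := by positivity
    have hYY0 : 0 ≤ YY := by positivity
    have e5 : (N : ℝ) * (2 ^ (P * s * (P * A0)) * (((s : ℝ) * B0 + 1) * (2 ^ (s * (A0 + B0)) *
        (T * (4 ^ (s * (A0 + B0)) * XX * YY))))) =
        (((s : ℝ) * B0 + 1)) * (N * (2 ^ (P * s * (P * A0)) * (2 ^ (s * (A0 + B0)) *
        (T * (4 ^ (s * (A0 + B0)) * XX * YY))))) := by ring
    have e6 : (N : ℝ) * T * (2 ^ (P * s * (P * A0)) * (2 ^ (s * (A0 + B0)) *
        (2 ^ (s * (A0 + B0)) * 4 ^ (s * (A0 + B0)) * (XX * YY)))) =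
        2 ^ (s * (A0 + B0)) * (N * (2 ^ (P * s * (P * A0)) * (2 ^ (s * (A0 + B0)) *
        (T * (4 ^ (s * (A0 + B0)) * XX * YY))))) := by ring
    rw [e5, e6]
    exact mul_le_mul_of_nonneg_right e3 (by positivity)
  · have e1 : (N : ℝ) / J ≤ (1 - α) / 2 := by
      rw [div_le_iff₀ hJr]
      rw [div_le_iff₀ hα1] at hJ1
      linarith
    linarith
  · have e1 : (1 - α) / 2 / (4 * h) * ((P * s : ℕ) : ℝ) = (P / (8 * ρ)) * s := by
      rw [hρ]
      push_cast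
      field_simp
      ring
    rw [e1]
    have e2 : 1 ≤ P / (8 * ρ) := by
      rw [le_div_iff₀ (by linarith)]
      linarith
    have e3 : (0 : ℝ) ≤ s := Nat.cast_nonneg s
    nlinarith
  · have e1 : (1 - α) / 2 / (4 * h) * ((P * A0 : ℕ) : ℝ) = (P / (8 * ρ)) * A0 := by
      rw [hρ]
      push_cast
      field_simp
      ring
    rw [e1]
    have e2 : 1 ≤ P / (8 * ρ) := by
      rw [le_div_iff₀ (by linarith)]
      linarith
    have e3 : (0 : ℝ) ≤ A0 := Nat.cast_nonneg A0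
    nlinarith

end Pool.CDTA
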