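import Pool.Agent.Helper59.CDT.Gad
import Pool.Agent.Helper59.SAT.Inst

/-!
# Adaptive constant depth tests for `k`-SAT: the gadget

`LG P h tu tv`: the digits of the words are divided into blocks in two ways. For every block of one
of the two kinds and every content of the block there is a variable (a letter); a set `S` with the
property `P` which contains, apart from the free variables `Z`, only `u` letters of the word `p` and
any `v` letters, contains all letters of `p`.
-/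

set_option autoImplicit false

namespace Pool.CDTA

open Finset Pool.SatDet Pool.Agent.Helper59.CDT

/-- The gadget. The block which contains the digit `i` is named `i`. -/
structure LG {E : Type} (P : Finset E → Prop) {N : ℕ} (h : ℕ) (tu tv : Fin N → ℕ) where
  /-- the `u` letter of the block of the digit `i` -/
  u : Fin N → (Fin N → Fin h) → E
  /-- the `v` letter of the block of the digit `i` -/
  v : Fin N → (Fin N → Fin h) → E
  /-- the free variables -/
  Z : Finset E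
  u_eq : ∀ i i' p p', u i p = u i' p' ↔ tu i = tu i' ∧ ∀ l, tu l = tu i → p l = p' l
  v_eq : ∀ i i' p p', v i p = v i' p' ↔ tv i = tv i' ∧ ∀ l, tv l = tv i → p l = p' l
  uZ : ∀ i p, u i p ∉ Z
  vZ : ∀ i p, v i p ∉ Z
  uv : ∀ i i' p p', u i p ≠ v i' p'
  main : ∀ p S, P S → (∀ e ∈ S, e ∈ Z ∨ (∃ i, e = u i p) ∨ ∃ i q, e = v i q) →
    ∀ i, u i p ∈ S ∧ v i p ∈ S
  sat : ∀ p S, (∀ e ∈ Z, e ∈ S) → (∀ i, u i p ∈ S) → (∀ i, v i p ∈ S) → P S

section gadget

variable {N h R n d : ℕ} {lab : Bool → Fin N → ℕ}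

/-- a word with a given letter -/
theorem exists_word (hh : 1 ≤ h) (l : Lt lab h) : ∃ q : Fin N → Fin h, l.2 = res lab q l.1 := by
  refine ⟨fun i => if hi : lab l.1.1 i = l.1.2.1 then l.2 ⟨i, hi⟩ else ⟨0, hh⟩, ?_⟩
  funext i
  simp only [res]
  rw [dif_pos i.2]

/-- Local consistency. -/
theorem loc_gen (ε : Gw lab h R ≃ Fin n) {P0 : Finset (Fin R)} (hP0 : P0.card = d)
    (hh : 1 ≤ h) (hk : d + 1 ≤ Fintype.card (Gw lab h R))
    (S : Finset (Clause n (d + 1)))
    (hS : ∀ C ∈ S, C ∈ Zs ε hP0 ∨ ∃ l, C = Lcl ε hP0 l)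
    (a : Fin n → Bool) (ha : ∀ C, ¬ Sats a C → C ∈ S) (T : Finset (Gw lab h R))
    (hT : T.card ≤ d + 1) : ∃ p : Fin N → Fin h, ∀ x ∈ T, a (ε x) = Pool.Agent.Helper59.CDT.val lab p x := by
  obtain ⟨T', hTT', hT'⟩ := Finset.exists_superset_card_eq hT hk
  have h1 : gcl ε (fun x => a (ε x)) T' hT' ∈ S := by
    apply ha
    rw [viol_gcl]
    intro x _
    rfl
  have h2 : ∃ p, ¬ Sats (ac ε p) (gcl ε (fun x => a (ε x)) T' hT') := by
    rcases hS _ h1 with h | ⟨l, h⟩
    · exact (mem_Zs.1 h).1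
    · obtain ⟨q, hq⟩ := exists_word hh l
      refine ⟨q, ?_⟩
      rw [h, viol_ac_Lcl]
      exact hq
  obtain ⟨p, hp⟩ := h2
  refine ⟨p, fun x hx => ?_⟩
  rw [viol_gcl] at hp
  have := hp x (hTT' hx)
  rw [ac_apply] at this
  exact this.symm

/-- a satisfying assignment of a formula in which the `u` letters are those of `p` and all `v`
letters are allowed -/
theorem sat_gen (ε : Gw lab h R ≃ Fin n) {P0 : Finset (Fin R)} (hP0 : P0.card = d)
    (hd : 2 ≤ d) (hh : 1 ≤ h) (hk : d + 1 ≤ Fintype.card (Gw lab h R))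
    (p : Fin N → Fin h) (S : Finset (Clause n (d + 1)))
    (hS : ∀ C ∈ S, C ∈ Zs ε hP0 ∨ ∃ l, C = Lcl ε hP0 l ∧ (l.1.1 = false → l.2 = res lab p l.1))
    (a : Fin n → Bool) (ha : ∀ C, ¬ Sats a C → C ∈ S) :
    ∀ b : Bl lab, Lcl ε hP0 ⟨b, res lab p b⟩ ∈ S := by
  have hloc := loc_gen ε hP0 hh hk S (fun C hC => by
    rcases hS C hC with h1 | ⟨l, h1, -⟩
    · exact Or.inl h1
    · exact Or.inr ⟨l, h1⟩) a ha
  have hloc3 : ∀ x y z : Gw lab h R, ∃ p : Fin N → Fin h,
      a (ε x) = Pool.Agent.Helper59.CDT.val lab p x ∧ a (ε y) = Pool.Agent.Helper59.CDT.val lab p y ∧ a (ε z) = Pool.Agent.Helper59.CDT.val lab p z := by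
    intro x y z
    obtain ⟨c', hc'⟩ := hloc {x, y, z} (Finset.card_le_three.trans (by omega))
    exact ⟨c', hc' x (by simp), hc' y (by simp), hc' z (by simp)⟩
  -- the dummies
  have hz : ∀ j, a (ε (Sum.inr j)) = false := by
    intro j
    obtain ⟨c', h1, -⟩ := hloc3 (Sum.inr j) (Sum.inr j) (Sum.inr j)
    rw [h1]
    rfl
  -- the letters
  have hlet : ∀ l : Lt lab h, a (ε (Sum.inl (l, false))) = true →
      (l.1.1 = false → l.2 = res lab p l.1) ∧ Lcl ε hP0 l ∈ S := by
    intro l hl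
    have h1 : Lcl ε hP0 l ∈ S := ha _ ((viol_Lcl ε hP0 a hz l).2 hl)
    refine ⟨?_, h1⟩
    rcases hS _ h1 with h2 | ⟨l', h2, h3⟩
    · exact absurd rfl ((mem_Zs.1 h2).2 l)
    · have h4 := Lcl_inj ε hP0 h2
      subst h4
      exact h3
  -- the ladder
  have hex : ∀ b : Bl lab, ∃ x : Lr lab h b, a (ε (Sum.inl (⟨b, x⟩, false))) = true := by
    intro b
    by_contra hcon
    push Not at hcon
    have hu : ∀ x : Lr lab h b, a (ε (Sum.inl (⟨b, x⟩, false))) = false := by
      intro x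
      simpa using hcon x
    have hne : Nonempty (Lr lab h b) := ⟨fun _ => ⟨0, hh⟩⟩
    have hpos : 0 < Fintype.card (Lr lab h b) := Fintype.card_pos
    have key : ∀ (j : ℕ) (hj : j < Fintype.card (Lr lab h b)),
        a (ε (Sum.inl (⟨b, (idx lab b).symm ⟨j, hj⟩⟩, true))) = true := by
      intro j
      induction j with
      | zero =>
        intro hj
        obtain ⟨c', h1, -⟩ := hloc3 (Sum.inl (⟨b, (idx lab b).symm ⟨0, hj⟩⟩, true))
          (Sum.inl (⟨b, (idx lab b).symm ⟨0, hj⟩⟩, true))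
          (Sum.inl (⟨b, (idx lab b).symm ⟨0, hj⟩⟩, true))
        rw [h1]
        simp only [Pool.Agent.Helper59.CDT.val, decide_eq_true_eq, Equiv.apply_symm_apply]
        exact Nat.zero_le _
      | succ j ih =>
        intro hj
        obtain ⟨c', h1, h2, h3⟩ := hloc3
          (Sum.inl (⟨b, (idx lab b).symm ⟨j, by omega⟩⟩, true))
          (Sum.inl (⟨b, (idx lab b).symm ⟨j, by omega⟩⟩, false))
          (Sum.inl (⟨b, (idx lab b).symm ⟨j + 1, hj⟩⟩, true))
        rw [ih] at h1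
        rw [hu] at h2
        simp only [Pool.Agent.Helper59.CDT.val, Equiv.apply_symm_apply] at h1 h2 h3
        have h4 : (⟨j, by omega⟩ : Fin _) ≤ idx lab b (res lab c' b) := by simpa using h1.symm
        have h5 : (idx lab b).symm ⟨j, by omega⟩ ≠ res lab c' b := by simpa using h2.symm
        have h6 : (⟨j, by omega⟩ : Fin _) ≠ idx lab b (res lab c' b) := by
          intro h7
          apply h5
          rw [h7, Equiv.symm_apply_apply]
        rw [h3, decide_eq_true_eq]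
        have h7 := lt_of_le_of_ne h4 h6
        exact h7
    obtain ⟨c', h1, h2, -⟩ := hloc3
      (Sum.inl (⟨b, (idx lab b).symm ⟨Fintype.card (Lr lab h b) - 1, by omega⟩⟩, true))
      (Sum.inl (⟨b, (idx lab b).symm ⟨Fintype.card (Lr lab h b) - 1, by omega⟩⟩, false))
      (Sum.inl (⟨b, (idx lab b).symm ⟨Fintype.card (Lr lab h b) - 1, by omega⟩⟩, false))
    rw [key] at h1
    rw [hu] at h2
    simp only [Pool.Agent.Helper59.CDT.val, Equiv.apply_symm_apply] at h1 h2
    have h4 : (⟨Fintype.card (Lr lab h b) - 1, by omega⟩ : Fin _) ≤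
        idx lab b (res lab c' b) := by simpa using h1.symm
    have h5 : (idx lab b).symm ⟨Fintype.card (Lr lab h b) - 1, by omega⟩ ≠ res lab c' b := by
      simpa using h2.symm
    apply h5
    rw [Equiv.symm_apply_eq]
    apply Fin.ext
    have h6 := (idx lab b (res lab c' b)).2
    have h7 : Fintype.card (Lr lab h b) - 1 ≤ (idx lab b (res lab c' b) : ℕ) := h4
    simp only
    omega
  -- the `u` blocks
  have hu : ∀ j, a (ε (Sum.inl (⟨⟨false, j⟩, res lab p ⟨false, j⟩⟩, false))) = true := by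
    intro j
    obtain ⟨x, hx⟩ := hex ⟨false, j⟩
    have h1 := (hlet ⟨⟨false, j⟩, x⟩ hx).1 rfl
    simp only at h1
    rw [← h1]
    exact hx
  -- all blocks
  have hall : ∀ b : Bl lab, a (ε (Sum.inl (⟨b, res lab p b⟩, false))) = true := by
    rintro ⟨s, j⟩
    cases s
    · exact hu j
    · obtain ⟨x, hx⟩ := hex ⟨true, j⟩
      have hxp : x = res lab p ⟨true, j⟩ := by
        funext i
        obtain ⟨q, h1, h2, -⟩ := hloc3 (Sum.inl (⟨⟨true, j⟩, x⟩, false))
          (Sum.inl (⟨⟨false, ⟨lab false i.1, mem_image_of_mem _ (mem_univ _)⟩⟩,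
            res lab p ⟨false, ⟨lab false i.1, mem_image_of_mem _ (mem_univ _)⟩⟩⟩, false))
          (Sum.inl (⟨⟨false, ⟨lab false i.1, mem_image_of_mem _ (mem_univ _)⟩⟩,
            res lab p ⟨false, ⟨lab false i.1, mem_image_of_mem _ (mem_univ _)⟩⟩⟩, false))
        rw [hx] at h1
        rw [hu] at h2
        simp only [Pool.Agent.Helper59.CDT.val] at h1 h2
        have h3 := of_decide_eq_true h1.symm
        have h4 := of_decide_eq_true h2.symm
        have h5 := congrFun h3 i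
        have h6 := congrFun h4 ⟨i.1, rfl⟩
        simp only [res] at h5 h6
        rw [h5, ← h6]
        rfl
      rw [← hxp]
      exact hx
  exact fun b => (hlet _ (hall b)).2

/-- the letter of the block of a digit -/
noncomputable def lt (lab : Bool → Fin N → ℕ) (s : Bool) (i : Fin N) (p : Fin N → Fin h) :
    Lt lab h :=
  ⟨⟨s, ⟨lab s i, mem_image_of_mem _ (mem_univ _)⟩⟩,
    res lab p ⟨s, ⟨lab s i, mem_image_of_mem _ (mem_univ _)⟩⟩⟩

theorem lt_eq (s : Bool) (i i' : Fin N) (p p' : Fin N → Fin h) :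
    lt lab s i p = lt lab s i' p' ↔ lab s i = lab s i' ∧ ∀ l, lab s l = lab s i → p l = p' l := by
  constructor
  · intro H
    have h1 := (Sigma.mk.inj_iff.1 H).1
    have h2 := eq_of_heq (Sigma.mk.inj_iff.1 h1).2
    have h3 : lab s i = lab s i' := congrArg Subtype.val h2
    refine ⟨h3, ?_⟩
    have key : ∀ (j j' : {j : ℕ // j ∈ univ.image (lab s)}), j = j' →
        HEq (res lab p ⟨s, j⟩) (res lab p' ⟨s, j'⟩) → ∀ l, lab s l = j.1 → p l = p' l := by
      rintro j _ rfl hq l hl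
      exact congrFun (eq_of_heq hq) ⟨l, hl⟩
    exact key _ _ h2 (Sigma.mk.inj_iff.1 H).2
  · rintro ⟨h1, h2⟩
    have key : ∀ (j j' : {j : ℕ // j ∈ univ.image (lab s)}), j = j' →
        (∀ l, lab s l = j.1 → p l = p' l) →
        (⟨⟨s, j⟩, res lab p ⟨s, j⟩⟩ : Lt lab h) = ⟨⟨s, j'⟩, res lab p' ⟨s, j'⟩⟩ := by
      rintro j _ rfl hq
      have : res lab p ⟨s, j⟩ = res lab p' ⟨s, j⟩ := funext fun i => hq i.1 i.2
      rw [this]
    exact key _ _ (Subtype.ext h1) h2

theorem lt_block (s : Bool) (i : Fin N) (p : Fin N → Fin h) : (lt lab s i p).1.1 = s := rfl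

/-- every block contains a digit -/
theorem block_eq (b : Bl lab) (p : Fin N → Fin h) :
    ∃ i, (⟨b, res lab p b⟩ : Lt lab h) = lt lab b.1 i p := by
  obtain ⟨s, j, hj⟩ := b
  obtain ⟨i, -, rfl⟩ := mem_image.1 hj
  exact ⟨i, rfl⟩

/-- every letter is a letter of some word -/
theorem letter_eq (hh : 1 ≤ h) (l : Lt lab h) : ∃ i q, l = lt lab l.1.1 i q := by
  obtain ⟨q, hq⟩ := exists_word hh l
  obtain ⟨i, hi⟩ := block_eq l.1 q
  refine ⟨i, q, ?_⟩
  rw [← hi]
  exact Sigma.ext rfl (heq_of_eq hq)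

/-- the gadget -/
noncomputable def lgSat (ε : Gw lab h R ≃ Fin n) {P0 : Finset (Fin R)} (hP0 : P0.card = d)
    (hd : 2 ≤ d) (hh : 1 ≤ h) (hk : d + 1 ≤ Fintype.card (Gw lab h R)) :
    LG (SatP n (d + 1)) h (lab false) (lab true) where
  u := fun i p => Lcl ε hP0 (lt lab false i p)
  v := fun i p => Lcl ε hP0 (lt lab true i p)
  Z := Zs ε hP0
  u_eq := fun i i' p p' => by
    rw [← lt_eq]
    exact (Lcl_inj ε hP0).eq_iff
  v_eq := fun i i' p p' => by
    rw [← lt_eq]
    exact (Lcl_inj ε hP0).eq_iff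
  uZ := fun i p h1 => (mem_Zs.1 h1).2 _ rfl
  vZ := fun i p h1 => (mem_Zs.1 h1).2 _ rfl
  uv := fun i i' p p' H => by
    have h1 := Lcl_inj ε hP0 H
    have h2 : (lt lab false i p).1.1 = (lt lab true i' p').1.1 := by rw [h1]
    simp [lt_block] at h2
  main := by
    rintro p S ⟨a, ha⟩ hS i
    have h1 := sat_gen ε hP0 hd hh hk p S (fun C hC => by
      rcases hS C hC with h2 | ⟨i, rfl⟩ | ⟨i, q, rfl⟩
      · exact Or.inl h2
      · exact Or.inr ⟨_, rfl, fun _ => rfl⟩
      · refine Or.inr ⟨_, rfl, fun h2 => ?_⟩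
        simp [lt_block] at h2) a ha
    exact ⟨h1 _, h1 _⟩
  sat := by
    intro p S hZ hu hv
    refine ⟨ac ε p, fun C hC => ?_⟩
    by_cases h1 : ∃ l, Lcl ε hP0 l = C
    · obtain ⟨l, rfl⟩ := h1
      rw [viol_ac_Lcl] at hC
      obtain ⟨i, hi⟩ := block_eq l.1 p
      have h2 : l = lt lab l.1.1 i p := by
        rw [← hi]
        exact Sigma.ext rfl (heq_of_eq hC)
      rw [h2]
      cases l.1.1
      · exact hu i
      · exact hv i
    · push Not at h1
      exact hZ C (mem_Zs.2 ⟨⟨p, hC⟩, h1⟩)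

/-- **the gadget exists** for all large numbers of variables -/
theorem exists_lgSat {N h n d : ℕ} (tu tv : Fin N → ℕ) {A B : ℕ} (hd : 2 ≤ d) (hh : 1 ≤ h)
    (hA : ∀ j, (univ.filter fun i => tu i = j).card ≤ A)
    (hB : ∀ j, (univ.filter fun i => tv i = j).card ≤ B) (hN : 1 ≤ N)
    (hn : 2 * ((univ.image tu).card * h ^ A + (univ.image tv).card * h ^ B) + d ≤ n) :
    Nonempty (LG (SatP n (d + 1)) h tu tv) := by
  classical
  set lab : Bool → Fin N → ℕ := fun s => if s then tv else tu with hlab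
  have e1 : lab false = tu := by simp [hlab]
  have e2 : lab true = tv := by simp [hlab]
  have hcard : Fintype.card (Lt lab h) ≤ (univ.image tu).card * h ^ A +
      (univ.image tv).card * h ^ B := by
    have := card_Lt_le (lab := lab) A B hh (by rw [e1]; exact hA) (by rw [e2]; exact hB)
    rwa [e1, e2] at this
  obtain ⟨R, hR⟩ : ∃ R, 2 * Fintype.card (Lt lab h) + R = n :=
    ⟨n - 2 * Fintype.card (Lt lab h), by omega⟩
  have hdR : d ≤ R := by omega
  have hc : Fintype.card (Gw lab h R) = n := by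
    rw [Fintype.card_sum, Fintype.card_prod, Fintype.card_bool, Fintype.card_fin]
    omega
  obtain ⟨ε⟩ : Nonempty (Gw lab h R ≃ Fin n) :=
    ⟨Fintype.equivOfCardEq (by rw [hc, Fintype.card_fin])⟩
  obtain ⟨P0, -, hP0⟩ := Finset.exists_subset_card_eq (s := (Finset.univ : Finset (Fin R)))
    (n := d) (by rw [Finset.card_univ, Fintype.card_fin]; exact hdR)
  have hL1 : 1 ≤ Fintype.card (Lt lab h) := by
    have : Nonempty (Lt lab h) :=
      ⟨⟨⟨false, ⟨lab false ⟨0, hN⟩, mem_image_of_mem _ (mem_univ _)⟩⟩, fun _ => ⟨0, hh⟩⟩⟩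
    exact Fintype.card_pos
  have hk : d + 1 ≤ Fintype.card (Gw lab h R) := by omega
  rw [← e1, ← e2]
  exact ⟨lgSat ε hP0 hd hh hk⟩

end gadget

end Pool.CDTA
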