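import Pool.Agent.CDep.FinalNum
import Pool.Agent.CDep.Machine
import Pool.Agent.CDep.Params
import Pool.Agent.Helper98.CD.Numbers

/-!
# Adaptive constant depth tests: numbers

The parameters of the induction on the depth, with an arbitrary gain.
-/

set_option autoImplicit false

namespace Pool.CDTA

open Finset Pool.CD Pool.CDep

/-- **the numbers with gain `4 c₁`** -/
theorem numbers_gain (k : ℕ) : ∃ C' : ℝ, 0 < C' ∧ ∀ c1 S w w0 : ℕ, 1 ≤ c1 → 2 ≤ S → 1 ≤ w →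
    w ≤ S → 1 ≤ w0 →
    ∃ (A0 B0 m : ℕ) (c : ℝ) (X Y : ℕ → ℝ), 4 * (c1 : ℝ) ≤ c ∧ 1 ≤ B0 ∧ B0 ≤ A0 ∧ 16 ≤ m ∧
      ((m * A0 : ℕ) : ℝ) ≤ c1 * (C' * (Real.log S ^ (1 - 1 / ((Nat.fib (2 * k + 4) : ℝ) - 1)) *
        Real.log (2 * w) ^ (1 / ((Nat.fib (2 * k + 4) : ℝ) - 1)) + Real.log w0)) ∧
      Grw w0 w S ((2 : ℝ) ^ (m * A0)) ((2 : ℝ) ^ (m * B0)) (2 * k + 1) X Y ∧
      X (2 * k + 1) = (2 : ℝ) ^ (((m * A0 : ℕ) : ℝ) / 2 - c) ∧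
      Y (2 * k + 1) = (2 : ℝ) ^ (((m * B0 : ℕ) : ℝ) / 2 - c) := by
  have hF3 : 3 ≤ Nat.fib (2 * k + 4) := by
    have h1 : Nat.fib 4 ≤ Nat.fib (2 * k + 4) := Nat.fib_mono (by omega)
    exact h1
  obtain ⟨C', hC', hpar⟩ := final_params (Nat.fib (2 * k + 4)) hF3
  refine ⟨C', hC', fun c1 S w w0 hc1 hS hw hwS hw0 => ?_⟩
  obtain ⟨σ, ω, μ, hσ, hω, hμ, hwω, hSp, hw0p, hfin⟩ := hpar S w w0 hS hw hwS hw0
  obtain ⟨A0, B0, s, c0, τ, hs, hB0, hBA, hA2, h1, h2, h3, h4, h5, h6, h7⟩ :=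
    Pool.Helper98.CD.cf_numbers (2 * k + 1) σ (by omega) hσ
  have hL3 : 2 * k + 1 + 3 = 2 * k + 4 := by omega
  rw [hL3] at h6 h7
  have hωc : ω ≤ c1 * ω := by nlinarith
  have hω' : 1 ≤ c1 * ω := hω.trans hωc
  have hwω' : 16 * w ≤ 2 ^ (c1 * ω) := hwω.trans (Nat.pow_le_pow_right (by norm_num) hωc)
  have hSp' : S ≤ 2 ^ (5 * σ * (c1 * ω) * μ * (8 * σ) ^ (Nat.fib (2 * k + 4) - 2)) := by
    refine hSp.trans (Nat.pow_le_pow_right (by norm_num) ?_)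
    exact Nat.mul_le_mul_right _ (Nat.mul_le_mul_right _ (Nat.mul_le_mul_left _ hωc))
  have hw0p' : (16 * w0) ^ 8 ≤ 2 ^ (5 * (c1 * ω) * μ * (8 * σ) ^ (Nat.fib (2 * k + 4) - 2)) := by
    refine hw0p.trans (Nat.pow_le_pow_right (by norm_num) ?_)
    exact Nat.mul_le_mul_right _ (Nat.mul_le_mul_right _ (Nat.mul_le_mul_left _ hωc))
  obtain ⟨c, hc, hXY⟩ := growth_exists (2 * k + 1) σ (c1 * ω) μ A0 B0 s S w w0 c0 τ (by omega)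
    hσ hω' hμ hs hB0 hBA h1 h2 h3 h4 h5 hw hwω' _ h7 hSp' hw0p'
  obtain ⟨hX1, hY1, hN1, hstep⟩ := hXY
  refine ⟨A0, B0, 16 * s * (c1 * ω) * μ, c (2 * k + 1), _, _, ?_, hB0, hBA, ?_, ?_,
    ⟨hX1, hY1, hN1, fun i h1 h2 => (hstep i h1 h2).1,
      fun i h1 h2 => (hstep i h1 h2).2.1, fun i h1 h2 => (hstep i h1 h2).2.2.1,
      fun i h1 h2 => (hstep i h1 h2).2.2.2⟩, rfl, rfl⟩
  · have e1 := hc (2 * k + 1) (by omega) le_rfl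
    have e2 : (c1 : ℝ) ≤ (c1 * ω : ℕ) := by
      exact_mod_cast (Nat.mul_le_mul_left c1 hω).trans' (by rw [mul_one])
    linarith
  · have := Nat.mul_le_mul (Nat.mul_le_mul hs hω') hμ
    calc 16 = 16 * (1 * 1 * 1) := by norm_num
      _ ≤ 16 * (s * (c1 * ω) * μ) := Nat.mul_le_mul_left _ this
      _ = _ := by ring
  · have e1 : 16 * s * (c1 * ω) * μ * A0 ≤
        c1 * (64 * ω * μ * (18 * σ) ^ (Nat.fib (2 * k + 4) - 2)) := by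
      calc 16 * s * (c1 * ω) * μ * A0 = c1 * (16 * ω * μ * (s * A0)) := by ring
        _ ≤ c1 * (16 * ω * μ * (4 * (18 * σ) ^ (Nat.fib (2 * k + 4) - 2))) :=
          Nat.mul_le_mul_left _ (Nat.mul_le_mul_left _ h6)
        _ = c1 * (64 * ω * μ * (18 * σ) ^ (Nat.fib (2 * k + 4) - 2)) := by ring
    have e2 : ((16 * s * (c1 * ω) * μ * A0 : ℕ) : ℝ) ≤
        ((c1 * (64 * ω * μ * (18 * σ) ^ (Nat.fib (2 * k + 4) - 2)) : ℕ) : ℝ) := by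
      exact_mod_cast e1
    refine e2.trans ?_
    rw [Nat.cast_mul]
    exact mul_le_mul_of_nonneg_left hfin (Nat.cast_nonneg _)

end Pool.CDTA
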