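import Pool.Agent.CDTA.Core
import Pool.Agent.Helper59.CDT.Clean

/-!
# Adaptive constant depth tests for `k`-SAT: the main inequality
-/

set_option autoImplicit false

namespace Pool.CDTA

open Finset MvPolynomial Pool.AD Pool.SatDet Pool.CDep Pool.CD Pool.Agent.Helper41.CD
  Pool.Agent.Helper59.CDT

/-- the answer of a test on a formula -/
theorem onF_ne_zero {n k : ℕ} {F : Type} [Field F] (φ : Finset (Clause n k))
    (f : MvPolynomial (Clause n k) F) : onF φ f ≠ 0 ↔ Hit φᶜ f := by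
  classical
  have h1 : rst φᶜ f = onF φ f := by
    unfold rst onF
    congr 2
    funext c
    by_cases h : c ∈ φ
    · rw [if_pos h, if_neg fun h' => (mem_compl.1 h') h]
    · rw [if_neg h, if_pos (mem_compl.2 h)]
  rw [← h1, rst_eq]
  constructor
  · intro h2
    by_contra hcon
    apply h2
    refine sum_eq_zero fun m hm => ?_
    exact absurd ⟨m, (mem_filter.1 hm).1, (mem_filter.1 hm).2⟩ hcon
  · rintro ⟨m, hm, hs⟩ h2
    have h3 := congrArg (coeff m) h2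
    rw [coeff_sum, coeff_zero, sum_eq_single m] at h3
    · rw [coeff_monomial, if_pos rfl] at h3
      exact (mem_support_iff.1 hm) h3
    · intro m' _ hne
      rw [coeff_monomial, if_neg hne]
    · intro h4
      exact absurd (mem_filter.2 ⟨hm, hs⟩) h4

theorem satP_compl {n k : ℕ} (S : Finset (Clause n k)) :
    SatP n k S ↔ ∃ a : Fin n → Bool, ∀ c ∈ Sᶜ, Sats a c := by
  constructor
  · rintro ⟨a, ha⟩
    refine ⟨a, fun c hc => ?_⟩
    by_contra h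
    exact (mem_compl.1 hc) (ha c h)
  · rintro ⟨a, ha⟩
    refine ⟨a, fun c hc => ?_⟩
    by_contra h
    exact hc (ha c (mem_compl.2 h))

open Classical in
/-- **the main inequality for `k`-SAT**, `k = d + 1` -/
theorem core_sat {n d J g K B h : ℕ} (hd : 2 ≤ d) (hh : 1 ≤ h) (hJ : 1 ≤ J) (hg : 1 ≤ g)
    (hK : 1 ≤ K) (hB : 1 ≤ B) (hn : 2 * (J * g * B * h ^ K + J * g * K * h ^ B) + d ≤ n)
    {F : Type} [Field F] {Ω : Type} [Fintype Ω] (pr : Ω → ℝ) (h0 : ∀ ω, 0 ≤ pr ω)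
    (h1 : ∑ ω, pr ω = 1) {Nt H : ℕ} (t : Ω → DT Nt) (ht : ∀ ω b, ((t ω).ones b).card ≤ H)
    {w0 w S k A g' T : ℕ} (hw0 : 1 ≤ w0) (hw : 1 ≤ w) (hA1 : 1 ≤ A) {X' Y' : ℕ → ℝ}
    (hG : Grw w0 w S ((h : ℝ) ^ A) ((h : ℝ) ^ B) (2 * k + 1) X' Y')
    (hX : 1 ≤ X' (2 * k + 1)) (hY : 0 ≤ Y' (2 * k + 1))
    (f : Ω → Fin Nt → MvPolynomial (Clause n (d + 1)) F)
    (hf : ∀ ω v, ∃ q : Fin T → Fin S → MvPolynomial (Clause n (d + 1)) F,
      (∀ i j, q i j ∈ Cls w0 w S k) ∧ f ω v = ∑ i, ∏ j, q i j)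
    (hml : ∀ ω v, ∀ m ∈ (f ω v).support, ∀ c, m c ≤ 1)
    {ε1 ε2 γ : ℝ}
    (hyes : ∀ φ : Finset (Clause n (d + 1)), (∃ a : Fin n → Bool, ∀ c ∈ φ, Sats a c) →
      ∑ ω, (if (t ω).eval (fun v => decide (onF φ (f ω v) ≠ 0)) = false then pr ω else 0) ≤ ε1)
    (hno : ∀ φ : Finset (Clause n (d + 1)), (¬ ∃ a : Fin n → Bool, ∀ c ∈ φ, Sats a c) →
      ∑ ω, (if (t ω).eval (fun v => decide (onF φ (f ω v) ≠ 0)) = true then pr ω else 0) ≤ ε2)
    (hγ0 : 0 < γ) (hγ : γ ≤ 1 - (ε1 + ε2 + Nt / J))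
    (hg' : (g' : ℝ) ≤ γ / (4 * H) * g) (hA : (A : ℝ) ≤ γ / (4 * H) * K) :
    γ / 2 * h ^ (g' * A * B) ≤ Nt * (2 ^ (g * K) * ((g' * B + 1) * (2 ^ (g' * B + g' * A) *
      (T * (4 ^ (g' * B + g' * A) * X' (2 * k + 1) ^ (g' * B) *
        Y' (2 * k + 1) ^ (g' * A)))))) := by
  obtain ⟨G⟩ := exists_ld (J := J) (g := g) (K := K) (B := B) (h := h) hd hh hJ hg hK hB hn
  choose q hq hqf using hf
  have hans : ∀ ω (S : Finset (Clause n (d + 1))),
      ansH (fun v => ∑ i, ∏ j, q ω v i j) S = fun v => decide (onF Sᶜ (f ω v) ≠ 0) := by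
    intro ω S
    funext v
    simp only [ansH, ← hqf]
    have h2 := onF_ne_zero Sᶜ (f ω v)
    rw [compl_compl] at h2
    by_cases h3 : Hit S (f ω v)
    · rw [decide_eq_true h3, decide_eq_true (h2.2 h3)]
    · rw [decide_eq_false h3, decide_eq_false fun h4 => h3 (h2.1 h4)]
  refine core G hh hJ hg hK hB pr h0 h1 t ht hw0 hw hA1 hG hX hY q hq (fun ω v m hm => ?_)
    (fun S hS => ?_) (fun S hS => ?_) hγ0 hγ hg' hA
  · rw [← hqf] at hm
    exact hml ω v m hm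
  · simp only [hans]
    exact hyes Sᶜ ((satP_compl S).1 hS)
  · simp only [hans]
    exact hno Sᶜ fun h2 => hS ((satP_compl S).2 h2)

end Pool.CDTA
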